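import Pool.Agent.helper16.LSZ.F5

set_option linter.all false
set_option autoImplicit false

/-!
# Crossing and Young inequalities in the Fock space (MP_2dd521_co)
-/

namespace Pool.Agent.helper59.Fock

open MvPolynomial Finset MeasureTheory
open scoped ComplexConjugate
open Pool.Agent.helper80.LSZ
open Pool.Agent.helper16.Fock

variable {ι : Type*} [Fintype ι] [DecidableEq ι]

theorem nr_int (p : MvPolynomial ι ℂ) : nr p = ∫ z : ι → ℂ, ‖eval z p‖ ^ 2 * gr z := by
  have h : ip p p = ((∫ z : ι → ℂ, ‖eval z p‖ ^ 2 * gr z : ℝ) : ℂ) := by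
    unfold ip E
    rw [← integral_complex_ofReal]
    congr 1
    ext z
    rw [Complex.ofReal_mul, Complex.ofReal_pow, ← Complex.conj_mul']
  unfold nr
  rw [h, Complex.ofReal_re]

theorem nr_integrable (p : MvPolynomial ι ℂ) :
    Integrable (fun z : ι → ℂ => ‖eval z p‖ ^ 2 * gr z) := by
  have h := (PolA_integrable (ip_mem p p)).norm
  refine h.congr (Filter.Eventually.of_forall (fun z => ?_))
  show ‖conj (eval z p) * eval z p * ((gr z : ℝ) : ℂ)‖ = _
  rw [norm_mul, norm_mul, Complex.norm_conj, Complex.norm_real, Real.norm_of_nonneg (gr_nonneg z)]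
  ring

/-- the real part of an inner product is bounded by the integral of a pointwise bound -/
theorem re_ip_le (p q : MvPolynomial ι ℂ) (F : (ι → ℂ) → ℝ)
    (hF : Integrable (fun z : ι → ℂ => F z * gr z))
    (h : ∀ z, ‖eval z p‖ * ‖eval z q‖ ≤ F z) : (ip p q).re ≤ ∫ z : ι → ℂ, F z * gr z := by
  have h1 : (ip p q).re ≤ ‖ip p q‖ := Complex.re_le_norm _
  have h2 : ‖ip p q‖ ≤ ∫ z : ι → ℂ, ‖conj (eval z p) * eval z q * ((gr z : ℝ) : ℂ)‖ := by
    unfold ip E
    exact norm_integral_le_integral_norm _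
  refine h1.trans (h2.trans ?_)
  refine integral_mono (PolA_integrable (ip_mem p q)).norm hF (fun z => ?_)
  show ‖conj (eval z p) * eval z q * ((gr z : ℝ) : ℂ)‖ ≤ F z * gr z
  rw [norm_mul, norm_mul, Complex.norm_conj, Complex.norm_real, Real.norm_of_nonneg (gr_nonneg z)]
  exact mul_le_mul_of_nonneg_right (h z) (gr_nonneg z)

/-- crossing -/
theorem crossing (R Q W : MvPolynomial ι ℂ) :
    (ip (R * Q ^ 2) (R * W ^ 2)).re ≤ nr (R * Q * W) := by
  rw [nr_int]
  refine re_ip_le _ _ _ (nr_integrable _) (fun z => le_of_eq ?_)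
  simp only [map_mul, map_pow, norm_mul, norm_pow]
  ring

theorem young_real (s : ℕ) (a b : ℝ) (ha : 0 ≤ a) (hb : 0 ≤ b) :
    (s + 1) * (a ^ s * b) ≤ s * a ^ (s + 1) + b ^ (s + 1) := by
  rcases eq_or_lt_of_le ha with h | h
  · subst h
    rcases Nat.eq_zero_or_pos s with h0 | h0
    · subst h0; simp
    · rw [zero_pow (by omega), zero_pow (by omega)]
      simp only [zero_mul, mul_zero, zero_add]
      positivity
  · have h1 := one_add_mul_le_pow (a := b / a - 1) (by
      have : 0 ≤ b / a := div_nonneg hb h.le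
      linarith) (s + 1)
    have h2 : (1 + (b / a - 1)) ^ (s + 1) = b ^ (s + 1) / a ^ (s + 1) := by
      rw [show 1 + (b / a - 1) = b / a by ring, div_pow]
    rw [h2, le_div_iff₀ (by positivity)] at h1
    have h3 : (1 + ((s + 1 : ℕ) : ℝ) * (b / a - 1)) * a ^ (s + 1) =
        (s + 1) * (a ^ s * b) - s * a ^ (s + 1) := by
      push_cast
      rw [pow_succ]
      field_simp
      ring
    linarith

/-- Young's inequality -/
theorem young (s : ℕ) (R Q V : MvPolynomial ι ℂ) :
    (2 * s + 2) * (ip (R * Q ^ (s + 1)) (R * (Q ^ s * V))).re ≤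
      (2 * s + 1) * nr (R * Q ^ (s + 1)) + nr (R * V ^ (s + 1)) := by
  have h := re_ip_le (R * Q ^ (s + 1)) (R * (Q ^ s * V))
    (fun z => ((2 * s + 1) * ‖eval z (R * Q ^ (s + 1))‖ ^ 2 + ‖eval z (R * V ^ (s + 1))‖ ^ 2) /
      (2 * s + 2)) (by
    have h1 := ((nr_integrable (R * Q ^ (s + 1))).const_mul (2 * s + 1 : ℝ)).add
      (nr_integrable (R * V ^ (s + 1)))
    refine (h1.div_const (2 * s + 2 : ℝ)).congr (Filter.Eventually.of_forall (fun z => ?_))
    simp only [Pi.add_apply]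
    ring) (fun z => by
    rw [le_div_iff₀ (by positivity)]
    simp only [map_mul, map_pow, norm_mul, norm_pow]
    have h2 := young_real (2 * s + 1) ‖eval z Q‖ ‖eval z V‖ (norm_nonneg _) (norm_nonneg _)
    push_cast at h2
    have h3 := mul_le_mul_of_nonneg_left h2 (sq_nonneg ‖eval z R‖)
    calc _ = ‖eval z R‖ ^ 2 * ((2 * (s : ℝ) + 1 + 1) *
          (‖eval z Q‖ ^ (2 * s + 1) * ‖eval z V‖)) := by ring
      _ ≤ _ := h3
      _ = _ := by ring)
  have h4 : ∫ z : ι → ℂ, ((2 * s + 1) * ‖eval z (R * Q ^ (s + 1))‖ ^ 2 +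
      ‖eval z (R * V ^ (s + 1))‖ ^ 2) / (2 * s + 2) * gr z =
      ((2 * s + 1) * nr (R * Q ^ (s + 1)) + nr (R * V ^ (s + 1))) / (2 * s + 2) := by
    rw [nr_int, nr_int, ← integral_const_mul, ← integral_add ((nr_integrable _).const_mul _)
      (nr_integrable _), ← integral_div]
    congr 1
    ext z
    ring
  rw [h4, le_div_iff₀ (by positivity)] at h
  linarith

end Pool.Agent.helper59.Fock
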