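import Pool.Agent.helper59.LSZ.H9

set_option linter.all false
set_option autoImplicit false

/-!
# Pate's inequality for matrices of size at most four (MP_2dd521_co): the permanents
-/

namespace Pool.Agent.helper59.Fock

open MvPolynomial Finset MeasureTheory
open scoped ComplexConjugate ComplexOrder
open Pool.Agent.helper80.LSZ
open Pool.Agent.helper16.Fock

section

variable {ι : Type*} [Fintype ι] [DecidableEq ι]

theorem conv_of_key {m : ℕ} {P : MvPolynomial ι ℂ} (k : ℕ)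
    (h1 : ((k : ℝ) + 2) ^ m * n 0 P (P ^ (k + 1)) ≤ ((k : ℝ) + 1) ^ m * nr (P ^ (k + 2))) :
    ((k : ℝ) + 2) ^ m * nr (P ^ (k + 1)) ^ 2 ≤
      ((k : ℝ) + 1) ^ m * (nr (P ^ k) * nr (P ^ (k + 2))) := by
  have h2 := test_one P k
  have h3 := nr_nonneg (P ^ k)
  have h4 := mul_le_mul_of_nonneg_left h2 (by positivity : (0 : ℝ) ≤ ((k : ℝ) + 2) ^ m)
  have h5 := mul_le_mul_of_nonneg_left h1 h3
  linarith

theorem key1 {P : MvPolynomial ι ℂ} (hP : P.IsHomogeneous 1) (k : ℕ) :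
    ((k : ℝ) + 2) ^ 1 * n 0 P (P ^ (k + 1)) ≤ ((k : ℝ) + 1) ^ 1 * nr (P ^ (k + 2)) := by
  have h4 := nr_mul hP (P ^ (k + 1))
  rw [← pow_succ'] at h4
  have h5 := nr_pd_mul (m := 0) hP (P ^ (k + 1))
  have h6 := rel hP (k + 1)
  rw [h5] at h6
  simp only [Finset.sum_range_succ, Finset.sum_range_zero, Nat.factorial, Nat.cast_one,
    zero_add] at h4 h6
  have e : k + 1 + 1 = k + 2 := rfl
  rw [e] at h4 h6
  push_cast at h4 h6
  norm_num at h4 h6
  rw [pow_one, pow_one]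
  set y0 := n 0 P (P ^ (k + 1))
  set y1 := n 1 P (P ^ (k + 1))
  have : ((k : ℝ) + 2) * y1 = nr (P ^ (k + 2)) := by
    rw [← h6]; ring
  nlinarith

theorem key2 (hι : Fintype.card ι = 2) {P : MvPolynomial ι ℂ} (hP : P.IsHomogeneous 2) (k : ℕ) :
    ((k : ℝ) + 2) ^ 2 * n 0 P (P ^ (k + 1)) ≤ ((k : ℝ) + 1) ^ 2 * nr (P ^ (k + 2)) := by
  have hf : (P ^ (k + 1)).IsHomogeneous (2 + 2 * k) := by
    have := hP.pow (k + 1)
    rwa [show 2 * (k + 1) = 2 + 2 * k by ring] at this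
  have h2 := test_two hP hf
  rw [hι] at h2
  have h4 := nr_mul hP (P ^ (k + 1))
  rw [← pow_succ'] at h4
  have h5 := nr_pd_mul (m := 1) hP (P ^ (k + 1))
  have h6 := rel hP (k + 1)
  rw [h5] at h6
  simp only [Finset.sum_range_succ, Finset.sum_range_zero, Nat.factorial, Nat.cast_one,
    zero_add] at h4 h6
  have e : k + 1 + 1 = k + 2 := rfl
  rw [e] at h4 h6
  push_cast at h2 h4 h6
  norm_num at h4 h6
  set y0 := n 0 P (P ^ (k + 1))
  set y1 := n 1 P (P ^ (k + 1))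
  set y2 := n 2 P (P ^ (k + 1))
  have hk : (0 : ℝ) ≤ k := Nat.cast_nonneg k
  have h7 : ((k : ℝ) + 2) * (y1 + y2) = 2 * nr (P ^ (k + 2)) := by
    rw [← h6]; ring
  have h8 : 2 * y0 ≤ (k + 1) * y1 := by linarith
  have h9 : y2 = 2 * (nr (P ^ (k + 2)) - y0 - y1) := by rw [h4]; ring
  rw [h9] at h7
  have h10 : (k + 2) * y1 = 2 * (k + 1) * nr (P ^ (k + 2)) - 2 * (k + 2) * y0 := by linarith
  have h11 := mul_le_mul_of_nonneg_left h8 (by positivity : (0 : ℝ) ≤ (k : ℝ) + 2)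
  have h12 : ((k : ℝ) + 2) * ((k + 1) * y1) = (k + 1) * ((k + 2) * y1) := by ring
  rw [h12, h10] at h11
  nlinarith

end

theorem nr_zero_eq {ι : Type*} [Fintype ι] [DecidableEq ι] : nr (0 : MvPolynomial ι ℂ) = 0 := by
  unfold nr
  rw [ip_zero_right]
  simp

theorem W_four (L : Fin 4 → Fin 4 → ℂ) (k : ℕ) :
    ((k : ℝ) + 2) ^ 4 * W L (k + 1) ^ 2 ≤ ((k : ℝ) + 1) ^ 4 * (W L k * W L (k + 2)) := by
  by_cases h : ∀ i, L i ≠ 0
  · have h1 := logconv4 L k (by simp) h
    have e : (∏ i, lf (L i)) = pol L := rfl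
    rw [e, nr_pol, nr_pol, nr_pol] at h1
    exact h1
  · push Not at h
    obtain ⟨i, hi⟩ := h
    have h2 : pol L = 0 := by
      have e : pol L = ∏ i, lf (L i) := rfl
      rw [e]
      refine Finset.prod_eq_zero (Finset.mem_univ i) ?_
      rw [hi]
      unfold lf
      simp
    have h4 : W L (k + 1) = 0 := by
      rw [← nr_pol L (k + 1), h2, pow_succ, mul_zero, nr_zero_eq]
    rw [h4]
    have := mul_nonneg (W_nonneg L k) (W_nonneg L (k + 2))
    simp only [ne_eq, OfNat.ofNat_ne_zero, not_false_eq_true, zero_pow, mul_zero]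
    positivity

theorem W_conv {m : ℕ} (hm : m ≤ 4) (L : Fin m → Fin m → ℂ) (k : ℕ) :
    ((k : ℝ) + 2) ^ m * W L (k + 1) ^ 2 ≤ ((k : ℝ) + 1) ^ m * (W L k * W L (k + 2)) := by
  interval_cases m
  · have h : pol L = 1 := by unfold pol; simp
    have h1 : ∀ j, W L j = 1 := by
      intro j
      rw [← nr_pol L j, h, one_pow]
      unfold nr
      rw [ip_one]
      simp
    rw [h1, h1, h1]
    simp
  · have h1 := conv_of_key k (key1 (pol_hom L) k)
    rw [nr_pol, nr_pol, nr_pol] at h1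
    exact h1
  · have h1 := conv_of_key k (key2 (by simp) (pol_hom L) k)
    rw [nr_pol, nr_pol, nr_pol] at h1
    exact h1
  · exact (W_three L k).2
  · exact W_four L k

/-- growth -/
theorem W_grow {m : ℕ} (hm : m ≤ 4) (L : Fin m → Fin m → ℂ) (k : ℕ) :
    ((k : ℝ) + 1) ^ m * (W L 1 * W L k) ≤ W L (k + 1) := by
  rcases eq_or_lt_of_le (W_nonneg L 1) with h1 | h1
  · rw [← h1, zero_mul, mul_zero]
    exact W_nonneg L _
  · induction k with
    | zero => rw [W_zero]; simp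
    | succ k ih =>
      have h2 := W_conv hm L k
      have p0 := (W_pos L h1 k).1
      have p1 := (W_pos L h1 (k + 1)).1
      have p2 := (W_pos L h1 (k + 2)).1
      have hk : (0 : ℝ) ≤ k := Nat.cast_nonneg k
      have h3 : W L k * (((k : ℝ) + 1) ^ m * (((k : ℝ) + 2) ^ m * (W L 1 * W L (k + 1)))) ≤
          W L k * (((k : ℝ) + 1) ^ m * W L (k + 2)) := by
        have h4 := mul_le_mul_of_nonneg_right ih p1.le
        have h5 := mul_le_mul_of_nonneg_left h4 (by positivity : (0 : ℝ) ≤ ((k : ℝ) + 2) ^ m)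
        calc _ = ((k : ℝ) + 2) ^ m * (((k : ℝ) + 1) ^ m * (W L 1 * W L k) * W L (k + 1)) := by ring
          _ ≤ ((k : ℝ) + 2) ^ m * (W L (k + 1) * W L (k + 1)) := h5
          _ = ((k : ℝ) + 2) ^ m * W L (k + 1) ^ 2 := by ring
          _ ≤ ((k : ℝ) + 1) ^ m * (W L k * W L (k + 2)) := h2
          _ = _ := by ring
      have h6 := le_of_mul_le_mul_left (le_of_mul_le_mul_left h3 p0) (by positivity)
      push_cast
      rw [show (k : ℝ) + 1 + 1 = k + 2 by ring]
      exact h6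

theorem W_pate' {m : ℕ} (hm : m ≤ 4) (L : Fin m → Fin m → ℂ) (k : ℕ) :
    ((k.factorial : ℝ)) ^ m * W L 1 ^ k ≤ W L k := by
  induction k with
  | zero => rw [W_zero]; simp
  | succ k ih =>
    have h := W_grow hm L k
    have h1 := W_nonneg L 1
    calc (((k + 1).factorial : ℕ) : ℝ) ^ m * W L 1 ^ (k + 1)
        = ((k : ℝ) + 1) ^ m * (W L 1 * ((k.factorial : ℝ) ^ m * W L 1 ^ k)) := by
          rw [Nat.factorial_succ]
          push_cast
          rw [mul_pow]
          ring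
      _ ≤ ((k : ℝ) + 1) ^ m * (W L 1 * W L k) := by
          refine mul_le_mul_of_nonneg_left ?_ (by positivity)
          exact mul_le_mul_of_nonneg_left ih h1
      _ ≤ _ := h

theorem pate_four {m : ℕ} (hm : m ≤ 4) (B : Matrix (Fin m) (Fin m) ℂ) (hB : B.PosSemidef) (k : ℕ) :
    ((k.factorial : ℕ) : ℂ) ^ m * B.permanent ^ k ≤ (kron1 k B).permanent ∧
      ((k + 2 : ℕ) : ℂ) ^ m * (kron1 (k + 1) B).permanent ^ 2 ≤
        ((k + 1 : ℕ) : ℂ) ^ m * ((kron1 k B).permanent * (kron1 (k + 2) B).permanent) := by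
  obtain ⟨L, hL⟩ := exists_fac B hB m (by
    have := B.rank_le_card_width
    simpa using this)
  have h1 := W_pate' hm L k
  have h2 := W_conv hm L k
  rw [← kron1_one B, W_eq L B hL, W_eq L B hL, W_eq L B hL, W_eq L B hL]
  refine ⟨by exact_mod_cast h1, ?_⟩
  exact_mod_cast h2

end Pool.Agent.helper59.Fock
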