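import Pool.Agent.helper59.LSZ.H10
import Pool.Agent.helper80.LSZ.Pate

set_option linter.all false
set_option autoImplicit false

/-!
# Pate's inequality for matrices of small rank (MP_2dd521_co): log-convexity in `k`
-/

namespace Pool.Agent.helper59.Fock

open Finset
open scoped ComplexConjugate ComplexOrder
open Pool.Agent.helper80.LSZ

theorem pair_ratio (m r k j : ℕ) (h : 2 * r ≤ m + 1) (hj : j < m) :
    (k + 2) ^ 2 * ((r + k * m + j) * (r + k * m + (m - 1 - j))) ≤
      (k + 1) ^ 2 * ((r + (k + 1) * m + j) * (r + (k + 1) * m + (m - 1 - j))) := by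
  obtain ⟨i, rfl⟩ : ∃ i, m = j + i + 1 := ⟨m - 1 - j, by omega⟩
  have e : j + i + 1 - 1 - j = i := by omega
  rw [e]
  have h' : 2 * (r : ℝ) ≤ j + i + 1 + 1 := by exact_mod_cast h
  have hk : (0 : ℝ) ≤ k := Nat.cast_nonneg k
  have hr : (0 : ℝ) ≤ r := Nat.cast_nonneg r
  have hj0 : (0 : ℝ) ≤ j := Nat.cast_nonneg j
  have hi0 : (0 : ℝ) ≤ i := Nat.cast_nonneg i
  have main : ((k : ℝ) + 2) ^ 2 * ((r + k * (j + i + 1) + j) * (r + k * (j + i + 1) + i)) ≤
      ((k : ℝ) + 1) ^ 2 * ((r + (k + 1) * (j + i + 1) + j) * (r + (k + 1) * (j + i + 1) + i)) := by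
    set M : ℝ := j + i + 1 with hM
    set a : ℝ := r + k * M + j with ha
    set b : ℝ := r + k * M + i with hb
    have e1 : (r : ℝ) + (k + 1) * M + j = a + M := by rw [ha]; ring
    have e2 : (r : ℝ) + (k + 1) * M + i = b + M := by rw [hb]; ring
    rw [e1, e2]
    have hS : a + b ≤ 2 * (k + 1) * M := by
      rw [ha, hb, hM]
      nlinarith
    have hMp : 0 < M := by rw [hM]; positivity
    have ha0 : 0 ≤ a := by rw [ha]; positivity
    have hb0 : 0 ≤ b := by rw [hb]; positivity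
    have h1 : 4 * (a * b) ≤ (a + b) ^ 2 := by nlinarith [sq_nonneg (a - b)]
    have h2 : (2 * (k : ℝ) + 3) * (a + b) ^ 2 ≤ 4 * (k + 1) ^ 2 * M * (a + b + M) := by
      have h3 : 0 ≤ (2 * (k + 1) * M - (a + b)) * (2 * (k + 1) * M + (2 * k + 3) * (a + b)) := by
        apply mul_nonneg
        · linarith
        · positivity
      nlinarith
    have h4 := mul_le_mul_of_nonneg_left h1 (by positivity : (0 : ℝ) ≤ 2 * (k : ℝ) + 3)
    nlinarith
  exact_mod_cast main

theorem asc_ratio (m r k : ℕ) (h : 2 * r ≤ m + 1) :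
    (k + 2) ^ m * (r + k * m).ascFactorial m ≤ (k + 1) ^ m * (r + (k + 1) * m).ascFactorial m := by
  rw [← Nat.pow_le_pow_iff_left (n := 2) (by norm_num)]
  have key : ∀ c n : ℕ, (c ^ m * n.ascFactorial m) ^ 2 =
      ∏ j ∈ range m, (c ^ 2 * ((n + j) * (n + (m - 1 - j)))) := by
    intro c n
    rw [Finset.prod_mul_distrib, Finset.prod_const, Finset.card_range, Finset.prod_mul_distrib,
      Finset.prod_range_reflect (fun j => n + j) m, ← Nat.ascFactorial_eq_prod_range]
    ring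
  rw [key, key]
  exact Finset.prod_le_prod' fun j hj => pair_ratio m r k j h (Finset.mem_range.1 hj)

/-- `per (J_k ⊗ B) / (k!)^m` is log-convex in `k` if `2 rank B ≤ m + 1` -/
theorem pate_rank_conv {m : ℕ} (B : Matrix (Fin m) (Fin m) ℂ) (hB : B.PosSemidef)
    (h : 2 * B.rank ≤ m + 1) (k : ℕ) :
    ((k + 2 : ℕ) : ℂ) ^ m * (kron1 (k + 1) B).permanent ^ 2 ≤
      ((k + 1 : ℕ) : ℂ) ^ m * ((kron1 k B).permanent * (kron1 (k + 2) B).permanent) := by
  obtain ⟨L, hL⟩ := exists_fac B hB B.rank le_rfl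
  have h1 := pate_ratio B hB B.rank le_rfl k
  rw [W_eq L B hL, W_eq L B hL, W_eq L B hL] at h1 ⊢
  have h2 := asc_ratio m B.rank k h
  generalize B.rank = r at *
  have h1' : W L (k + 1) ^ 2 * ((r + (k + 1) * m).ascFactorial m : ℝ) ≤
      W L k * W L (k + 2) * ((r + k * m).ascFactorial m : ℝ) := by exact_mod_cast h1
  have h2' : ((k : ℝ) + 2) ^ m * ((r + k * m).ascFactorial m : ℝ) ≤
      ((k : ℝ) + 1) ^ m * ((r + (k + 1) * m).ascFactorial m : ℝ) := by exact_mod_cast h2
  have p0 := W_nonneg L k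
  have p2 := W_nonneg L (k + 2)
  have main : ((k : ℝ) + 2) ^ m * W L (k + 1) ^ 2 ≤
      ((k : ℝ) + 1) ^ m * (W L k * W L (k + 2)) := by
    rcases Nat.eq_zero_or_pos ((r + (k + 1) * m).ascFactorial m) with h0 | h0
    · have hm : m ≠ 0 := by
        rintro rfl
        simp at h0
      have h3 : r + (k + 1) * m ≠ 0 := by positivity
      exfalso
      obtain ⟨n, hn⟩ := Nat.exists_eq_succ_of_ne_zero h3
      rw [hn] at h0
      exact absurd h0 (Nat.ascFactorial_pos n m).ne'
    · have hp : (0 : ℝ) < ((r + (k + 1) * m).ascFactorial m : ℝ) := by exact_mod_cast h0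
      have hk : (0 : ℝ) ≤ ((k : ℝ) + 2) ^ m := by positivity
      have h5 := mul_le_mul_of_nonneg_left h1' hk
      have h6 := mul_le_mul_of_nonneg_left h2' (mul_nonneg p0 p2)
      refine le_of_mul_le_mul_right ?_ hp
      nlinarith
  exact_mod_cast main

end Pool.Agent.helper59.Fock
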