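import Pool.Agent.helper59.LSZ.H1

set_option linter.all false
set_option autoImplicit false

/-!
# The number operator of a coordinate (MP_2dd521_co)
-/

namespace Pool.Agent.helper59.Fock

open MvPolynomial Finset MeasureTheory
open scoped ComplexConjugate
open Pool.Agent.helper80.LSZ
open Pool.Agent.helper16.Fock

variable {ι : Type*} [Fintype ι] [DecidableEq ι]

/-- the number operator of the coordinate `i` -/
noncomputable def D (i : ι) (p : MvPolynomial ι ℂ) : MvPolynomial ι ℂ := X i * pderiv i p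

theorem D_add (i : ι) (p q : MvPolynomial ι ℂ) : D i (p + q) = D i p + D i q := by
  unfold D
  rw [map_add, mul_add]

theorem D_mul (i : ι) (p q : MvPolynomial ι ℂ) : D i (p * q) = D i p * q + p * D i q := by
  unfold D
  rw [Derivation.leibniz, smul_eq_mul, smul_eq_mul]
  ring

theorem D_C (i : ι) (c : ℂ) (p : MvPolynomial ι ℂ) : D i (C c * p) = C c * D i p := by
  rw [D_mul]
  unfold D
  rw [pderiv_C]
  ring

theorem D_pow (i : ι) (p : MvPolynomial ι ℂ) (n : ℕ) :
    D i (p ^ (n + 1)) = C ((n : ℂ) + 1) * (p ^ n * D i p) := by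
  unfold D
  rw [pderiv_pow, Nat.add_sub_cancel]
  simp
  ring

theorem D_X_pow (i : ι) (t : ℕ) (H : MvPolynomial ι ℂ) :
    D i (X i ^ t * H) = C (t : ℂ) * (X i ^ t * H) + X i ^ t * D i H := by
  rw [D_mul]
  congr 1
  rcases t with _ | t
  · simp [D]
  · rw [D_pow]
    unfold D
    rw [pderiv_X_self]
    push_cast
    ring

theorem coeff_D (i : ι) (p : MvPolynomial ι ℂ) (d : ι →₀ ℕ) :
    coeff d (D i p) = (d i : ℂ) * coeff d p := by
  classical
  induction p using MvPolynomial.induction_on' with
  | add p1 p2 h1 h2 => rw [D_add, coeff_add, coeff_add, h1, h2]; ring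
  | monomial e c =>
    unfold D
    rw [pderiv_monomial, mul_comm, MvPolynomial.X, monomial_mul, mul_one, coeff_monomial,
      coeff_monomial]
    by_cases h0 : e i = 0
    · rw [h0]
      simp only [Nat.cast_zero, mul_zero]
      split_ifs with h1 h2
      · subst h2; rw [h0]; simp
      · simp
      · rename_i h3
        subst h3; rw [h0]; simp
      · simp
    · have h1 : e - Finsupp.single i 1 + Finsupp.single i 1 = e := by
        ext j
        by_cases hj : j = i
        · subst hj
          simp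
          omega
        · simp [Finsupp.single_apply, Ne.symm hj]
      rw [h1]
      by_cases h2 : e = d
      · subst h2; rw [if_pos rfl, if_pos rfl]; ring
      · rw [if_neg h2, if_neg h2]; ring

/-- real weight of a monomial -/
noncomputable def wr (d : ι →₀ ℕ) : ℝ := ∏ j, ((d j).factorial : ℝ)

theorem wr_cast (d : ι →₀ ℕ) : ((wr d : ℝ) : ℂ) = w d := by
  unfold wr w
  push_cast
  rfl

theorem wr_nonneg (d : ι →₀ ℕ) : 0 ≤ wr d := by
  unfold wr
  positivity

theorem ip_formula (p q : MvPolynomial ι ℂ) :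
    ip p q = ∑ d ∈ p.support, conj (coeff d p) * (coeff d q * w d) := by
  conv_lhs => rw [← p.support_sum_monomial_coeff]
  rw [ip_sum_left]
  refine Finset.sum_congr rfl (fun d _ => ?_)
  rw [ip_monomial_left']

/-- spectral sums -/
noncomputable def Sm (i : ι) (φ : ℕ → ℝ) (F : MvPolynomial ι ℂ) : ℝ :=
  ∑ d ∈ F.support, φ (d i) * (‖coeff d F‖ ^ 2 * wr d)

theorem Sm_nonneg (i : ι) (φ : ℕ → ℝ) (F : MvPolynomial ι ℂ)
    (h : ∀ d ∈ F.support, 0 ≤ φ (d i)) : 0 ≤ Sm i φ F :=
  Finset.sum_nonneg (fun d hd => mul_nonneg (h d hd) (mul_nonneg (by positivity) (wr_nonneg d)))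

theorem Sm_add (i : ι) (φ ψ : ℕ → ℝ) (F : MvPolynomial ι ℂ) :
    Sm i (fun k => φ k + ψ k) F = Sm i φ F + Sm i ψ F := by
  unfold Sm
  rw [← Finset.sum_add_distrib]
  exact Finset.sum_congr rfl (fun d _ => by ring)

theorem Sm_mul (i : ι) (c : ℝ) (φ : ℕ → ℝ) (F : MvPolynomial ι ℂ) :
    Sm i (fun k => c * φ k) F = c * Sm i φ F := by
  unfold Sm
  rw [Finset.mul_sum]
  exact Finset.sum_congr rfl (fun d _ => by ring)

theorem ip_of_coeff (i : ι) (φ : ℕ → ℝ) (F G : MvPolynomial ι ℂ)
    (h : ∀ d, coeff d G = (φ (d i) : ℂ) * coeff d F) : (ip F G).re = Sm i φ F := by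
  have h1 : ip F G = ((Sm i φ F : ℝ) : ℂ) := by
    rw [ip_formula]
    unfold Sm
    push_cast
    refine Finset.sum_congr rfl (fun d _ => ?_)
    rw [h, wr_cast, ← Complex.conj_mul']
    ring
  rw [h1, Complex.ofReal_re]

theorem nr_of_coeff (i : ι) (φ : ℕ → ℝ) (F G : MvPolynomial ι ℂ)
    (h : ∀ d, coeff d G = (φ (d i) : ℂ) * coeff d F) : nr G = Sm i (fun k => φ k ^ 2) F := by
  classical
  have h1 : ip G G = ((Sm i (fun k => φ k ^ 2) F : ℝ) : ℂ) := by
    rw [ip_formula]
    unfold Sm
    push_cast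
    have hs : G.support ⊆ F.support := by
      intro d hd
      rw [mem_support_iff] at hd ⊢
      intro h2
      rw [h, h2, mul_zero] at hd
      exact hd rfl
    rw [Finset.sum_subset hs (fun d _ hd => by
      rw [notMem_support_iff.1 hd]; simp)]
    refine Finset.sum_congr rfl (fun d _ => ?_)
    rw [h, map_mul, Complex.conj_ofReal, wr_cast, ← Complex.conj_mul']
    ring
  unfold nr
  rw [h1, Complex.ofReal_re]

theorem nr_eq_Sm (i : ι) (F : MvPolynomial ι ℂ) : nr F = Sm i (fun _ => 1) F := by
  have := nr_of_coeff i (fun _ => 1) F F (fun d => by simp)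
  simpa using this

theorem wr_single (i : ι) (d : ι →₀ ℕ) : wr (d + Finsupp.single i 1) = (d i + 1) * wr d := by
  unfold wr
  rw [← Finset.mul_prod_erase _ _ (Finset.mem_univ i),
    ← Finset.mul_prod_erase Finset.univ (fun j => ((d j).factorial : ℝ)) (Finset.mem_univ i)]
  have h4 : ∏ x ∈ Finset.univ.erase i,
      (((d + Finsupp.single i 1 : ι →₀ ℕ) x).factorial : ℝ) =
      ∏ x ∈ Finset.univ.erase i, ((d x).factorial : ℝ) := by
    refine Finset.prod_congr rfl (fun x hx => ?_)
    have : x ≠ i := Finset.ne_of_mem_erase hx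
    simp [Finsupp.single_apply, this.symm]
  rw [h4]
  simp [Nat.factorial_succ]
  ring

/-- multiplication by the coordinate shifts the spectral sums -/
theorem Sm_X (i : ι) (φ : ℕ → ℝ) (F : MvPolynomial ι ℂ) :
    Sm i φ (X i * F) = Sm i (fun k => (k + 1) * φ (k + 1)) F := by
  classical
  unfold Sm
  have hsup : (X i * F).support = F.support.map (addRightEmbedding (Finsupp.single i 1)) := by
    rw [mul_comm]
    exact support_mul_X i F
  rw [hsup, Finset.sum_map]
  refine Finset.sum_congr rfl (fun d _ => ?_)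
  simp only [addRightEmbedding_apply]
  rw [mul_comm (X i) F, coeff_mul_X, wr_single]
  simp only [Finsupp.add_apply, Finsupp.single_eq_same]
  ring

theorem support_X_pow (i : ι) (t : ℕ) (H : MvPolynomial ι ℂ) :
    ∀ d ∈ (X i ^ t * H).support, t ≤ d i := by
  classical
  induction t with
  | zero => intro d _; exact Nat.zero_le _
  | succ t ih =>
    intro d hd
    have e : X i ^ (t + 1) * H = (X i ^ t * H) * X i := by ring
    rw [e, support_mul_X, Finset.mem_map] at hd
    obtain ⟨d', hd', rfl⟩ := hd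
    have := ih d' hd'
    simp only [addRightEmbedding_apply, Finsupp.add_apply, Finsupp.single_eq_same]
    omega

end Pool.Agent.helper59.Fock
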