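import Pool.Agent.helper59.LSZ.H2

set_option linter.all false
set_option autoImplicit false

/-!
# The inequality of one leg, in a coordinate (MP_2dd521_co)
-/

namespace Pool.Agent.helper59.Fock

open MvPolynomial Finset MeasureTheory
open scoped ComplexConjugate
open Pool.Agent.helper80.LSZ
open Pool.Agent.helper16.Fock

variable {ι : Type*} [Fintype ι] [DecidableEq ι]

theorem ip_sub_right (p q r : MvPolynomial ι ℂ) : ip p (q - r) = ip p q - ip p r := by
  have h := ip_add_right p (q - r) r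
  rw [sub_add_cancel] at h
  rw [h]
  ring

theorem X_cancel (i : ι) {p q : MvPolynomial ι ℂ} (h : X i * p = X i * q) : p = q :=
  mul_left_cancel₀ (X_ne_zero i) h

theorem nr_C_mul (c : ℂ) (p : MvPolynomial ι ℂ) : nr (C c * p) = ‖c‖ ^ 2 * nr p := by
  have h : ((nr (C c * p) : ℝ) : ℂ) = ((‖c‖ ^ 2 * nr p : ℝ) : ℂ) := by
    rw [nr_cast, ip_smul_left, ip_smul_right, ← nr_cast]
    push_cast
    rw [← Complex.conj_mul']
    ring
  exact_mod_cast h

/-- the second moment of a leg, with `s = r + 2` copies -/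
theorem J2_low (i : ι) (q : MvPolynomial ι ℂ) (r : ℕ) :
    Sm i (fun k => ((k : ℝ) + 2) * ((k : ℝ) - r)) (X i ^ r * q ^ (r + 2)) ≤
      ((r : ℝ) + 2) ^ 2 * (ip (X i ^ r * q ^ (r + 2))
        ((X i * q) ^ (r + 1) * pderiv i (pderiv i (X i * q)))).re := by
  set P := X i * q with hP
  set F := X i ^ r * q ^ (r + 2) with hF
  have hG : P ^ (r + 2) = X i * (X i * F) := by rw [hP, hF]; ring
  have hC2 : (C 2 : MvPolynomial ι ℂ) = 2 := map_ofNat C 2
  -- the second derivative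
  have e1 : pderiv i (P ^ (r + 2)) = C ((r : ℂ) + 2) * (P ^ (r + 1) * pderiv i P) := by
    rw [pderiv_pow, show r + 2 - 1 = r + 1 by omega, map_add, hC2]
    push_cast
    simp only [map_natCast]
    ring
  have e2 : pderiv i (pderiv i (P ^ (r + 2))) = C (((r : ℂ) + 2) * ((r : ℂ) + 1)) *
      (P ^ r * pderiv i P ^ 2) + C ((r : ℂ) + 2) * (P ^ (r + 1) * pderiv i (pderiv i P)) := by
    rw [e1, Derivation.leibniz, pderiv_C, Derivation.leibniz, pderiv_pow,
      show r + 1 - 1 = r by omega]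
    simp only [smul_eq_mul, map_mul, map_add, hC2, map_natCast, map_one]
    push_cast
    ring
  have e3 : ip F (pderiv i (pderiv i (P ^ (r + 2)))) = nr (P ^ (r + 2)) := by
    rw [← ip_X, ← ip_X, ← hG, nr_cast]
  rw [e2, ip_add_right, ip_smul_right, ip_smul_right] at e3
  have e4 := congrArg Complex.re e3
  rw [Complex.add_re, Complex.ofReal_re] at e4
  have e5 : ((r : ℂ) + 2) * ((r : ℂ) + 1) = ((((r : ℝ) + 2) * ((r : ℝ) + 1) : ℝ) : ℂ) := by
    push_cast; ring
  have e6 : ((r : ℂ) + 2) = ((((r : ℝ) + 2) : ℝ) : ℂ) := by push_cast; ring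
  rw [e5, Complex.re_ofReal_mul, e6, Complex.re_ofReal_mul] at e4
  -- crossing
  have e7 := crossing (P ^ r) q (pderiv i P)
  have e8 : P ^ r * q ^ 2 = F := by rw [hP, hF]; ring
  rw [e8] at e7
  -- the norm of the crossed term
  have e9 : C ((r : ℂ) + 2) * (P ^ r * q * pderiv i P) = C 2 * F + D i F := by
    apply X_cancel i
    have h1 : X i * (C ((r : ℂ) + 2) * (P ^ r * q * pderiv i P)) = pderiv i (P ^ (r + 2)) := by
      rw [e1]
      have : P ^ (r + 1) = X i * (P ^ r * q) := by rw [hP]; ring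
      rw [this]
      ring
    rw [h1, hG, Derivation.leibniz, Derivation.leibniz, pderiv_X_self]
    unfold D
    simp only [smul_eq_mul, mul_one]
    rw [hC2]
    ring
  have e10 : nr (C ((r : ℂ) + 2) * (P ^ r * q * pderiv i P)) =
      Sm i (fun k => ((k : ℝ) + 2) ^ 2) F := by
    refine nr_of_coeff i (fun k => (k : ℝ) + 2) F _ (fun d => ?_)
    rw [e9, coeff_add, coeff_D, coeff_C_mul]
    push_cast
    ring
  rw [nr_C_mul] at e10
  have e11 : ‖(r : ℂ) + 2‖ ^ 2 = ((r : ℝ) + 2) ^ 2 := by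
    rw [e6, Complex.norm_real, Real.norm_of_nonneg (by positivity)]
  rw [e11] at e10
  have e12 : nr (P ^ (r + 2)) = Sm i (fun k => ((k : ℝ) + 1) * ((k : ℝ) + 2)) F := by
    rw [hG, nr_eq_Sm i, Sm_X, Sm_X]
    congr 1
    ext k
    push_cast
    ring
  set J := (ip F (P ^ (r + 1) * pderiv i (pderiv i P))).re
  set Z := (ip F (P ^ r * pderiv i P ^ 2)).re
  set M := nr (P ^ r * q * pderiv i P)
  have h1 : Sm i (fun k => ((k : ℝ) + 2) * ((k : ℝ) - r)) F =
      ((r : ℝ) + 2) * Sm i (fun k => ((k : ℝ) + 1) * ((k : ℝ) + 2)) F -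
        ((r : ℝ) + 1) * Sm i (fun k => ((k : ℝ) + 2) ^ 2) F := by
    rw [sub_eq_add_neg, ← neg_mul, ← Sm_mul, ← Sm_mul, ← Sm_add]
    congr 1
    ext k
    ring
  rw [h1, ← e12, ← e10, ← e4]
  have hr : (0 : ℝ) ≤ r := Nat.cast_nonneg r
  nlinarith [mul_le_mul_of_nonneg_left e7 (by positivity : (0 : ℝ) ≤ ((r : ℝ) + 2) * (((r : ℝ) + 2) * ((r : ℝ) + 1)))]

/-! ### rotations of a coordinate -/

/-- the rotation of the coordinate `i` -/
noncomputable def rot (i : ι) (ω : ℂ) : MvPolynomial ι ℂ →ₐ[ℂ] MvPolynomial ι ℂ :=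
  aeval (fun j => if j = i then C ω * X j else X j)

theorem coeff_rot (i : ι) (ω : ℂ) (p : MvPolynomial ι ℂ) :
    ∀ d, coeff d (rot i ω p) = ω ^ (d i) * coeff d p := by
  classical
  induction p using MvPolynomial.induction_on with
  | C a =>
    intro d
    unfold rot
    rw [aeval_C, MvPolynomial.algebraMap_eq, coeff_C]
    split_ifs with h
    · subst h; simp
    · simp
  | add p1 p2 h1 h2 => intro d; rw [map_add, coeff_add, coeff_add, h1, h2]; ring
  | mul_X p j h =>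
    intro d
    rw [map_mul]
    have e : rot i ω (X j) = (if j = i then C ω * X j else X j) := by
      unfold rot
      rw [aeval_X]
    rw [e]
    by_cases hj : j = i
    · subst hj
      rw [if_pos rfl, mul_left_comm, coeff_C_mul, coeff_mul_X', coeff_mul_X']
      split_ifs with h1
      · rw [h]
        rw [Finsupp.mem_support_iff] at h1
        have h2 : d j = (d - Finsupp.single j 1 : ι →₀ ℕ) j + 1 := by
          simp
          omega
        rw [h2, pow_succ]
        simp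
        ring
      · ring
    · rw [if_neg hj, coeff_mul_X', coeff_mul_X']
      split_ifs with h1
      · rw [h]
        have h2 : (d - Finsupp.single j 1 : ι →₀ ℕ) i = d i := by
          simp [Finsupp.single_apply, hj]
        rw [h2]
      · ring

theorem nr_rot (i : ι) (ω : ℂ) (hω : ‖ω‖ = 1) (F : MvPolynomial ι ℂ) : nr (rot i ω F) = nr F := by
  classical
  have h0 : ω ≠ 0 := by
    intro h
    rw [h, norm_zero] at hω
    exact zero_ne_one hω
  have h1 : ip (rot i ω F) (rot i ω F) = ip F F := by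
    rw [ip_formula, ip_formula]
    have hs : (rot i ω F).support = F.support := by
      ext d
      rw [mem_support_iff, mem_support_iff, coeff_rot]
      constructor
      · intro h h2; rw [h2, mul_zero] at h; exact h rfl
      · intro h; exact mul_ne_zero (pow_ne_zero _ h0) h
    rw [hs]
    refine Finset.sum_congr rfl (fun d _ => ?_)
    rw [coeff_rot, map_mul, map_pow]
    have h2 : conj ω * ω = 1 := by
      rw [Complex.conj_mul', hω]
      simp
    have h3 : conj ω ^ d i * ω ^ d i = 1 := by rw [← mul_pow, h2, one_pow]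
    calc _ = (conj ω ^ d i * ω ^ d i) * (conj (coeff d F) * (coeff d F * w d)) := by ring
      _ = _ := by rw [h3, one_mul]
  unfold nr
  rw [h1]

/-- the averaging bound -/
theorem rot_le (i : ι) (ω : ℂ) (hω : ‖ω‖ = 1) (q : MvPolynomial ι ℂ) (t : ℕ) :
    (ip (X i ^ t * q ^ (t + 3)) (X i ^ t * (q ^ (t + 2) * rot i ω q))).re ≤
      nr (X i ^ t * q ^ (t + 3)) := by
  have h := young (t + 2) (X i ^ t) q (rot i ω q)
  have h1 : rot i ω (X i ^ t * q ^ (t + 3)) = C (ω ^ t) * (X i ^ t * rot i ω q ^ (t + 3)) := by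
    rw [map_mul, map_pow, map_pow]
    have e : rot i ω (X i) = C ω * X i := by
      unfold rot
      rw [aeval_X, if_pos rfl]
    rw [e, mul_pow, map_pow]
    ring
  have h2 := nr_rot i ω hω (X i ^ t * q ^ (t + 3))
  rw [h1, nr_C_mul, norm_pow, hω, one_pow, one_pow, one_mul] at h2
  rw [show t + 2 + 1 = t + 3 by omega, h2] at h
  push_cast at h
  have ht : (0 : ℝ) ≤ t := Nat.cast_nonneg t
  have h3 : (2 * ((t : ℝ) + 2) + 2) * (ip (X i ^ t * q ^ (t + 3))
      (X i ^ t * (q ^ (t + 2) * rot i ω q))).re ≤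
      (2 * ((t : ℝ) + 2) + 2) * nr (X i ^ t * q ^ (t + 3)) := by
    refine h.trans (le_of_eq ?_)
    ring
  exact le_of_mul_le_mul_left h3 (by positivity)

/-- the third moment of a leg, with `s = t + 3` copies -/
theorem J3_low (i : ι) (q : MvPolynomial ι ℂ) (hq : ∀ d, coeff d q ≠ 0 → d i ≤ 3) (t : ℕ) :
    Sm i (fun k => 6 * ((k : ℝ) - t) ^ 2 - 12 * ((t : ℝ) + 3) * ((k : ℝ) - t))
      (X i ^ t * q ^ (t + 3)) ≤
      ((t : ℝ) + 3) ^ 2 * (ip (X i ^ t * q ^ (t + 3))
        ((X i * q) ^ (t + 2) * pderiv i (pderiv i (pderiv i (X i * q))))).re := by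
  set F := X i ^ t * q ^ (t + 3) with hF
  have hC : ∀ n : ℕ, (C (n : ℂ) : MvPolynomial ι ℂ) = n := fun n => map_natCast C n
  have hC3 : (C 3 : MvPolynomial ι ℂ) = 3 := map_ofNat C 3
  have hC2 : (C 2 : MvPolynomial ι ℂ) = 2 := map_ofNat C 2
  -- the third derivative
  have e1 : X i ^ 2 * pderiv i (pderiv i (pderiv i (X i * q))) = D i (D i (D i q)) - D i q := by
    unfold D
    simp only [Derivation.leibniz, pderiv_X_self, smul_eq_mul, map_add, mul_one,
      Derivation.map_one_eq_zero, mul_zero, add_zero, zero_add]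
    ring
  set q0 := C (1 / 4 : ℂ) * (rot i 1 q + rot i Complex.I q + rot i (-1) q +
    rot i (-Complex.I) q) with hq0
  have e2 : D i (D i (D i q)) - D i q = C 6 * D i (D i q) - C 12 * D i q + C 6 * q - C 6 * q0 := by
    ext d
    simp only [coeff_add, coeff_sub, coeff_C_mul, coeff_D, hq0, coeff_rot]
    by_cases h : coeff d q = 0
    · rw [h]; ring
    · have h1 := hq d h
      have hI : Complex.I ^ 2 = -1 := Complex.I_sq
      interval_cases (d i)
      · push_cast; ring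
      · push_cast; ring
      · push_cast
        linear_combination (3 : ℂ) * coeff d q * hI
      · push_cast; ring
  have e3 : (X i * q) ^ (t + 2) * pderiv i (pderiv i (pderiv i (X i * q))) =
      C 6 * (X i ^ t * (q ^ (t + 2) * D i (D i q))) - C 12 * (X i ^ t * (q ^ (t + 2) * D i q)) +
      C 6 * F - C 6 * (X i ^ t * (q ^ (t + 2) * q0)) := by
    have : (X i * q) ^ (t + 2) * pderiv i (pderiv i (pderiv i (X i * q))) =
        X i ^ t * q ^ (t + 2) * (X i ^ 2 * pderiv i (pderiv i (pderiv i (X i * q)))) := by ring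
    rw [this, e1, e2, hF]
    ring
  rw [e3, ip_sub_right, ip_add_right, ip_sub_right, ip_smul_right, ip_smul_right, ip_smul_right,
    ip_smul_right]
  set A2 := ip F (X i ^ t * (q ^ (t + 2) * D i (D i q))) with hA2
  set A1 := ip F (X i ^ t * (q ^ (t + 2) * D i q)) with hA1
  -- the last term
  have e4 : (ip F (X i ^ t * (q ^ (t + 2) * q0))).re ≤ nr F := by
    have h1 := rot_le i 1 (by simp) q t
    have h2 := rot_le i Complex.I (by simp) q t
    have h3 := rot_le i (-1) (by simp) q t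
    have h4 := rot_le i (-Complex.I) (by simp) q t
    have e : X i ^ t * (q ^ (t + 2) * q0) = C (1 / 4 : ℂ) * (X i ^ t * (q ^ (t + 2) * rot i 1 q) +
        X i ^ t * (q ^ (t + 2) * rot i Complex.I q) + X i ^ t * (q ^ (t + 2) * rot i (-1) q) +
        X i ^ t * (q ^ (t + 2) * rot i (-Complex.I) q)) := by
      rw [hq0]
      ring
    rw [e, ip_smul_right, ip_add_right, ip_add_right, ip_add_right]
    have e5 : (1 / 4 : ℂ) = ((1 / 4 : ℝ) : ℂ) := by push_cast; ring
    rw [e5, Complex.re_ofReal_mul]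
    simp only [Complex.add_re]
    linarith
  -- first moment
  have e6 : C ((t : ℂ) + 3) * (X i ^ t * (q ^ (t + 2) * D i q)) = D i F - C (t : ℂ) * F := by
    rw [hF, D_X_pow, show t + 3 = (t + 2) + 1 by ring, D_pow]
    push_cast
    simp only [map_add, hC2, hC3, hC, map_one]
    ring
  have ht : (0 : ℝ) ≤ t := Nat.cast_nonneg t
  have e7 : ((t : ℝ) + 3) * A1.re = Sm i (fun k => (k : ℝ) - t) F := by
    rw [← ip_of_coeff i (fun k => (k : ℝ) - t) F (D i F - C (t : ℂ) * F) (fun d => by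
      rw [coeff_sub, coeff_D, coeff_C_mul]
      push_cast
      ring), ← e6, ip_smul_right, show ((t : ℂ) + 3) = (((t : ℝ) + 3 : ℝ) : ℂ) by push_cast; ring,
      Complex.re_ofReal_mul]
  -- the norm of the first moment
  have e8 : ((t : ℝ) + 3) ^ 2 * nr (X i ^ t * (q ^ (t + 2) * D i q)) =
      Sm i (fun k => ((k : ℝ) - t) ^ 2) F := by
    rw [← nr_of_coeff i (fun k => (k : ℝ) - t) F (D i F - C (t : ℂ) * F) (fun d => by
      rw [coeff_sub, coeff_D, coeff_C_mul]
      push_cast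
      ring), ← e6, nr_C_mul, show ((t : ℂ) + 3) = (((t : ℝ) + 3 : ℝ) : ℂ) by push_cast; ring,
      Complex.norm_real, Real.norm_of_nonneg (by positivity)]
  -- second moment
  have e9 : C ((t : ℂ) + 3) * (C ((t : ℂ) + 2) * (X i ^ t * q ^ (t + 1) * D i q ^ 2) +
      X i ^ t * (q ^ (t + 2) * D i (D i q))) =
      D i (D i F - C (t : ℂ) * F) - C (t : ℂ) * (D i F - C (t : ℂ) * F) := by
    rw [← e6, D_C, D_X_pow, D_mul, show t + 2 = (t + 1) + 1 by ring, D_pow]
    push_cast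
    simp only [map_add, hC2, hC3, hC, map_one]
    ring
  have e10 : ((t : ℝ) + 3) * (((t : ℝ) + 2) * (ip F (X i ^ t * q ^ (t + 1) * D i q ^ 2)).re +
      A2.re) = Sm i (fun k => ((k : ℝ) - t) ^ 2) F := by
    rw [← ip_of_coeff i (fun k => ((k : ℝ) - t) ^ 2) F
      (D i (D i F - C (t : ℂ) * F) - C (t : ℂ) * (D i F - C (t : ℂ) * F)) (fun d => by
      simp only [coeff_sub, coeff_D, coeff_C_mul]
      push_cast
      ring), ← e9, ip_smul_right, ip_add_right, ip_smul_right,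
      show ((t : ℂ) + 3) = (((t : ℝ) + 3 : ℝ) : ℂ) by push_cast; ring,
      show ((t : ℂ) + 2) = (((t : ℝ) + 2 : ℝ) : ℂ) by push_cast; ring,
      Complex.re_ofReal_mul, Complex.add_re, Complex.re_ofReal_mul]
  have e11 := crossing (X i ^ t * q ^ (t + 1)) q (D i q)
  have e12 : X i ^ t * q ^ (t + 1) * q ^ 2 = F := by rw [hF]; ring
  have e13 : X i ^ t * q ^ (t + 1) * q * D i q = X i ^ t * (q ^ (t + 2) * D i q) := by ring
  rw [e12, e13] at e11
  set Z := (ip F (X i ^ t * q ^ (t + 1) * D i q ^ 2)).re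
  set M := nr (X i ^ t * (q ^ (t + 2) * D i q))
  set S2 := Sm i (fun k => ((k : ℝ) - t) ^ 2) F with hS2
  set S1 := Sm i (fun k => (k : ℝ) - t) F with hS1
  have e14 : Sm i (fun k => 6 * ((k : ℝ) - t) ^ 2 - 12 * ((t : ℝ) + 3) * ((k : ℝ) - t)) F =
      6 * S2 - 12 * ((t : ℝ) + 3) * S1 := by
    rw [hS2, hS1, sub_eq_add_neg, ← neg_mul, ← Sm_mul, ← Sm_mul, ← Sm_add]
    congr 1
    ext k
    ring
  have e15 : S2 ≤ ((t : ℝ) + 3) ^ 2 * A2.re := by
    have h1 := mul_le_mul_of_nonneg_left e11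
      (by positivity : (0 : ℝ) ≤ ((t : ℝ) + 3) ^ 2 * ((t : ℝ) + 2))
    nlinarith
  rw [e14]
  have e16 : (6 * A2 - 12 * A1 + 6 * ip F F - 6 * ip F (X i ^ t * (q ^ (t + 2) * q0))).re =
      6 * A2.re - 12 * A1.re + 6 * nr F - 6 * (ip F (X i ^ t * (q ^ (t + 2) * q0))).re := by
    unfold nr
    simp [Complex.sub_re, Complex.add_re, Complex.mul_re]
  rw [e16, ← e7]
  have e17 : 0 ≤ ((t : ℝ) + 3) ^ 2 * (nr F - (ip F (X i ^ t * (q ^ (t + 2) * q0))).re) :=
    mul_nonneg (by positivity) (by linarith)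
  nlinarith

/-- the inequality of one leg in a coordinate, `s = r + 2` -/
theorem leg_coord (i : ι) (q : MvPolynomial ι ℂ) (hq : ∀ d, coeff d q ≠ 0 → d i ≤ 3) (r : ℕ) :
    0 ≤ 3 * ((r : ℝ) + 1) * (ip (X i ^ r * q ^ (r + 2))
        ((X i * q) ^ (r + 1) * pderiv i (pderiv i (X i * q)))).re +
      (r : ℝ) * (ip (X i ^ (r - 1) * q ^ (r + 2))
        ((X i * q) ^ (r + 1) * pderiv i (pderiv i (pderiv i (X i * q))))).re := by
  rcases r with _ | t
  · have h1 := J2_low i q 0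
    have h2 := Sm_nonneg i (fun k => ((k : ℝ) + 2) * ((k : ℝ) - (0 : ℕ))) (X i ^ 0 * q ^ (0 + 2))
      (fun d _ => by rw [Nat.cast_zero, sub_zero]; positivity)
    have h3 := h2.trans h1
    push_cast at h3 ⊢
    nlinarith
  · have h1 := J2_low i q (t + 1)
    have h2 := J3_low i q hq t
    rw [Nat.add_sub_cancel]
    have e1 : X i ^ (t + 1) * q ^ (t + 1 + 2) = X i * (X i ^ t * q ^ (t + 3)) := by ring
    have h3 : Sm i (fun k => ((k : ℝ) + 2) * ((k : ℝ) - ((t + 1 : ℕ) : ℝ)))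
        (X i ^ (t + 1) * q ^ (t + 1 + 2)) =
        Sm i (fun k => ((k : ℝ) + 1) * ((k : ℝ) + 3) * ((k : ℝ) - t)) (X i ^ t * q ^ (t + 3)) := by
      rw [e1, Sm_X]
      congr 1
      ext k
      push_cast
      ring
    rw [h3] at h1
    have h4 : 0 ≤ Sm i (fun k => 3 * ((t : ℝ) + 2) * (((k : ℝ) + 1) * ((k : ℝ) + 3) *
        ((k : ℝ) - t)) + ((t : ℝ) + 1) * (6 * ((k : ℝ) - t) ^ 2 -
        12 * ((t : ℝ) + 3) * ((k : ℝ) - t))) (X i ^ t * q ^ (t + 3)) := by
      refine Sm_nonneg i _ _ (fun d hd => ?_)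
      have h5 := support_X_pow i t (q ^ (t + 3)) d hd
      obtain ⟨κ, hκ⟩ := Nat.exists_eq_add_of_le h5
      rw [hκ]
      have ht : (0 : ℝ) ≤ t := Nat.cast_nonneg t
      rcases κ with _ | κ
      · simp
      · have hk : (0 : ℝ) ≤ κ := Nat.cast_nonneg κ
        push_cast
        have e2 : 3 * ((t : ℝ) + 2) * (((t : ℝ) + ((κ : ℝ) + 1) + 1) * ((t : ℝ) + ((κ : ℝ) + 1) + 3) *
            ((t : ℝ) + ((κ : ℝ) + 1) - t)) + ((t : ℝ) + 1) * (6 * ((t : ℝ) + ((κ : ℝ) + 1) - t) ^ 2 -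
            12 * ((t : ℝ) + 3) * ((t : ℝ) + ((κ : ℝ) + 1) - t)) =
            3 * ((κ : ℝ) + 1) * ((t : ℝ) ^ 3 + 4 * t ^ 2 + 6 * t + 6 +
              κ * (2 * (t : ℝ) ^ 2 + 12 * t + 14 + (t + 2) * κ)) := by ring
        rw [e2]
        positivity
    have h6 : 0 ≤ 3 * ((t : ℝ) + 2) * Sm i (fun k => ((k : ℝ) + 1) * ((k : ℝ) + 3) *
        ((k : ℝ) - t)) (X i ^ t * q ^ (t + 3)) + ((t : ℝ) + 1) *
        Sm i (fun k => 6 * ((k : ℝ) - t) ^ 2 - 12 * ((t : ℝ) + 3) * ((k : ℝ) - t))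
          (X i ^ t * q ^ (t + 3)) := by
      rw [← Sm_mul, ← Sm_mul, ← Sm_add]
      exact h4
    have e3 : t + 1 + 2 = t + 3 := rfl
    have e4 : t + 1 + 1 = t + 2 := rfl
    rw [e3, e4] at h1 ⊢
    push_cast at h1 ⊢
    set J2 := (ip (X i ^ (t + 1) * q ^ (t + 3)) ((X i * q) ^ (t + 2) *
      pderiv i (pderiv i (X i * q)))).re
    set J3 := (ip (X i ^ t * q ^ (t + 3)) ((X i * q) ^ (t + 2) *
      pderiv i (pderiv i (pderiv i (X i * q))))).re
    have ht : (0 : ℝ) ≤ t := Nat.cast_nonneg t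
    have h7 : 0 ≤ ((t : ℝ) + 3) ^ 2 * (3 * ((t : ℝ) + 1 + 1) * J2 + ((t : ℝ) + 1) * J3) := by
      have h8 := mul_le_mul_of_nonneg_left h1 (by positivity : (0 : ℝ) ≤ 3 * ((t : ℝ) + 2))
      have h9 := mul_le_mul_of_nonneg_left h2 (by positivity : (0 : ℝ) ≤ (t : ℝ) + 1)
      nlinarith
    exact nonneg_of_mul_nonneg_right h7 (by positivity)

end Pool.Agent.helper59.Fock
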