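import Pool.Agent.helper59.LSZ.H3

set_option linter.all false
set_option autoImplicit false

/-!
# Unitary substitutions; the inequality of one leg for a linear form (MP_2dd521_co)
-/

namespace Pool.Agent.helper59.Fock

open MvPolynomial Finset MeasureTheory
open scoped ComplexConjugate
open Pool.Agent.helper80.LSZ
open Pool.Agent.helper16.Fock

variable {ι : Type*} [Fintype ι] [DecidableEq ι]

/-- linear form -/
noncomputable def lf (v : ι → ℂ) : MvPolynomial ι ℂ := ∑ b, C (v b) * X b

theorem T_lf (v : ι → ℂ) (f : MvPolynomial ι ℂ) :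
    T (lf v) f = ∑ b, C (conj (v b)) * pderiv b f := by
  unfold lf
  rw [T_sum_left]
  refine Finset.sum_congr rfl (fun b _ => ?_)
  rw [T_mul, T_X, T_C]

/-- substitution -/
noncomputable def sub (U : ι → ι → ℂ) : MvPolynomial ι ℂ →ₐ[ℂ] MvPolynomial ι ℂ :=
  aeval (fun a => lf (U a))

theorem sub_X (U : ι → ι → ℂ) (a : ι) : sub U (X a) = lf (U a) := by
  unfold sub
  rw [aeval_X]

theorem sub_C (U : ι → ι → ℂ) (c : ℂ) : sub U (C c) = C c := by
  unfold sub
  rw [aeval_C, MvPolynomial.algebraMap_eq]

theorem pderiv_lf (v : ι → ℂ) (b : ι) : pderiv b (lf v) = C (v b) := by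
  unfold lf
  rw [map_sum, Finset.sum_eq_single b]
  · rw [Derivation.leibniz, pderiv_C, pderiv_X_self]
    simp
  · intro c _ hc
    rw [Derivation.leibniz, pderiv_C, pderiv_X_of_ne hc]
    simp
  · intro h; exact absurd (Finset.mem_univ b) h

/-- rows orthonormal -/
def Uni (U : ι → ι → ℂ) : Prop := ∀ a c, ∑ b, conj (U a b) * U c b = if a = c then 1 else 0

theorem sub_pderiv {U : ι → ι → ℂ} (hU : Uni U) (a : ι) (f : MvPolynomial ι ℂ) :
    T (lf (U a)) (sub U f) = sub U (pderiv a f) := by
  classical
  rw [T_lf]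
  induction f using MvPolynomial.induction_on with
  | C c =>
    rw [pderiv_C, map_zero, sub_C]
    refine Finset.sum_eq_zero (fun b _ => ?_)
    rw [pderiv_C, mul_zero]
  | add p q hp hq =>
    rw [map_add, map_add, map_add, ← hp, ← hq, ← Finset.sum_add_distrib]
    refine Finset.sum_congr rfl (fun b _ => ?_)
    rw [map_add, mul_add]
  | mul_X p c hp =>
    rw [map_mul, sub_X, Derivation.leibniz, map_add, smul_eq_mul, smul_eq_mul, map_mul, map_mul,
      sub_X, ← hp]
    have e : ∀ b, C (conj (U a b)) * pderiv b (sub U p * lf (U c)) =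
        sub U p * C (conj (U a b) * U c b) + lf (U c) * (C (conj (U a b)) * pderiv b (sub U p)) := by
      intro b
      rw [Derivation.leibniz, pderiv_lf, smul_eq_mul, smul_eq_mul, map_mul]
      ring
    simp_rw [e]
    rw [Finset.sum_add_distrib, ← Finset.mul_sum, ← Finset.mul_sum, ← map_sum, hU a c]
    congr 2
    rw [pderiv_X]
    by_cases h : a = c
    · subst h
      simp
    · rw [if_neg h, Pi.single_eq_of_ne (Ne.symm h)]
      simp

theorem constantCoeff_sub (U : ι → ι → ℂ) (q : MvPolynomial ι ℂ) :
    constantCoeff (sub U q) = constantCoeff q := by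
  induction q using MvPolynomial.induction_on with
  | C c => rw [sub_C]
  | add p q hp hq => rw [map_add, map_add, map_add, hp, hq]
  | mul_X p c hp =>
    rw [map_mul, map_mul, map_mul, hp, sub_X, constantCoeff_X]
    have : constantCoeff (lf (U c)) = 0 := by
      unfold lf
      rw [map_sum]
      refine Finset.sum_eq_zero (fun b _ => ?_)
      rw [map_mul, constantCoeff_X, mul_zero]
    rw [this]

theorem ip_sub {U : ι → ι → ℂ} (hU : Uni U) (p : MvPolynomial ι ℂ) :
    ∀ q, ip (sub U p) (sub U q) = ip p q := by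
  induction p using MvPolynomial.induction_on with
  | C c =>
    intro q
    have h1 : ∀ u : MvPolynomial ι ℂ, ip (C c) u = conj c * (constantCoeff u * w (0 : ι →₀ ℕ)) := by
      intro u
      have := ip_monomial_left' (0 : ι →₀ ℕ) c u
      rw [constantCoeff_eq]
      exact this
    rw [sub_C, h1, h1, constantCoeff_sub]
  | add p1 p2 h1 h2 => intro q; rw [map_add, ip_add_left, ip_add_left, h1, h2]
  | mul_X p c hp =>
    intro q
    rw [map_mul, sub_X, mul_comm, T_spec, sub_pderiv hU, hp, mul_comm, ip_X]

theorem sub_surj {U : ι → ι → ℂ} (hU : Uni U) (x : MvPolynomial ι ℂ) :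
    ∃ x', sub U x' = x ∧ ∀ n, x.IsHomogeneous n → x'.IsHomogeneous n := by
  classical
  -- the columns are orthonormal
  have hcol : ∀ a c, ∑ b, conj (U b a) * U b c = if a = c then 1 else 0 := by
    have h1 : (Matrix.of U) * (Matrix.of U).conjTranspose = 1 := by
      ext a c
      rw [Matrix.mul_apply, Matrix.one_apply]
      have := hU c a
      simp only [Matrix.of_apply, Matrix.conjTranspose_apply]
      rw [show (if a = c then (1 : ℂ) else 0) = if c = a then 1 else 0 by
        by_cases h : a = c
        · rw [if_pos h, if_pos h.symm]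
        · rw [if_neg h, if_neg (Ne.symm h)], ← this]
      refine Finset.sum_congr rfl (fun b _ => ?_)
      rw [mul_comm]
      rfl
    have h2 : (Matrix.of U).conjTranspose * (Matrix.of U) = 1 := mul_eq_one_comm.1 h1
    intro a c
    have h3 := congrFun (congrFun h2 a) c
    rw [Matrix.mul_apply, Matrix.one_apply] at h3
    exact h3
  refine ⟨sub (fun a b => conj (U b a)) x, ?_, ?_⟩
  · induction x using MvPolynomial.induction_on with
    | C c => rw [sub_C, sub_C]
    | add p q hp hq => rw [map_add, map_add, hp, hq]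
    | mul_X p a hp =>
      rw [map_mul, map_mul, hp]
      congr 1
      rw [sub_X]
      unfold lf
      rw [map_sum]
      have e : ∀ b, sub U (C (conj (U b a)) * X b) = ∑ c, C (conj (U b a) * U b c) * X c := by
        intro b
        rw [map_mul, sub_C, sub_X]
        unfold lf
        rw [Finset.mul_sum]
        refine Finset.sum_congr rfl (fun c _ => ?_)
        rw [map_mul]
        ring
      simp_rw [e]
      rw [Finset.sum_comm]
      have e2 : ∀ c, ∑ b, C (conj (U b a) * U b c) * X c = C (if a = c then (1 : ℂ) else 0) * X c := by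
        intro c
        rw [← Finset.sum_mul, ← map_sum, hcol a c]
      simp_rw [e2]
      rw [Finset.sum_eq_single a]
      · simp
      · intro c _ hc
        rw [if_neg (Ne.symm hc)]
        simp
      · intro h; exact absurd (Finset.mem_univ a) h
  · intro n hx
    unfold sub
    have := hx.aeval (fun a => lf (fun b => conj (U b a))) (n := 1) (by
      intro a
      unfold lf
      apply IsHomogeneous.sum
      intro b _
      have := (isHomogeneous_C ι (conj (U b a))).mul (isHomogeneous_X ℂ b)
      simpa using this)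
    simpa using this

theorem T_sub {U : ι → ι → ℂ} (hU : Uni U) (p f : MvPolynomial ι ℂ) :
    T (sub U p) (sub U f) = sub U (T p f) := by
  apply ip_ext
  intro x
  obtain ⟨x', rfl, -⟩ := sub_surj hU x
  rw [← T_spec, ← map_mul, ip_sub hU, ip_sub hU, T_spec]

/-- a unitary matrix with a given first row -/
theorem exists_uni (v : ι → ℂ) (hv : v ≠ 0) : ∃ (U : ι → ι → ℂ) (i : ι) (c : ℝ), Uni U ∧ 0 < c ∧
    lf v = sub U (C (c : ℂ) * X i) := by
  classical
  obtain ⟨i, hi⟩ : ∃ i, v i ≠ 0 := by
    by_contra h
    push Not at h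
    exact hv (funext h)
  set x : EuclideanSpace ℂ ι := WithLp.toLp 2 v with hx
  have hx0 : x ≠ 0 := by
    intro h
    have := congrArg (fun y : EuclideanSpace ℂ ι => y i) h
    exact hi (by simpa [hx] using this)
  have hc : 0 < ‖x‖ := norm_pos_iff.2 hx0
  have hort : Orthonormal ℂ (({i} : Set ι).restrict (fun _ : ι => ((‖x‖⁻¹ : ℝ) : ℂ) • x)) := by
    constructor
    · intro j
      show ‖((‖x‖⁻¹ : ℝ) : ℂ) • x‖ = 1
      rw [norm_smul, Complex.norm_real, Real.norm_of_nonneg (by positivity)]
      field_simp
    · intro j k hjk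
      exact absurd (Subtype.ext (by rw [Set.mem_singleton_iff.1 j.2, Set.mem_singleton_iff.1 k.2])) hjk
  obtain ⟨b, hb⟩ := hort.exists_orthonormalBasis_extension_of_card_eq (by simp)
  refine ⟨fun a c => b a c, i, ‖x‖, ?_, hc, ?_⟩
  · intro a c
    have h1 := orthonormal_iff_ite.1 b.orthonormal a c
    rw [← h1, PiLp.inner_apply]
    refine Finset.sum_congr rfl (fun j _ => ?_)
    simp [mul_comm]
  · rw [map_mul, sub_C, sub_X]
    unfold lf
    rw [Finset.mul_sum]
    refine Finset.sum_congr rfl (fun j _ => ?_)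
    rw [← mul_assoc, ← map_mul]
    congr 2
    have h1 := hb i (Set.mem_singleton i)
    rw [h1]
    show v j = (‖x‖ : ℂ) * ((((‖x‖⁻¹ : ℝ) : ℂ) • x) j)
    rw [PiLp.smul_apply, smul_eq_mul]
    rw [← mul_assoc, ← Complex.ofReal_mul, mul_inv_cancel₀ hc.ne']
    simp [hx]

end Pool.Agent.helper59.Fock
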