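import Pool.Agent.helper59.LSZ.H4

set_option linter.all false
set_option autoImplicit false

/-!
# The inequality of one leg for a linear form (MP_2dd521_co)
-/

namespace Pool.Agent.helper59.Fock

open MvPolynomial Finset MeasureTheory
open scoped ComplexConjugate
open Pool.Agent.helper80.LSZ
open Pool.Agent.helper16.Fock

variable {ι : Type*} [Fintype ι] [DecidableEq ι]

theorem leg_scaled (i : ι) (q : MvPolynomial ι ℂ) (hq : ∀ d, coeff d q ≠ 0 → d i ≤ 3) (r : ℕ)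
    (c : ℝ) (hc : 0 < c) (a : MvPolynomial ι ℂ) (ha : a = C (c : ℂ) * X i) :
    0 ≤ 3 * ((r : ℝ) + 1) * (ip (a ^ r * q ^ (r + 2))
        ((a * q) ^ (r + 1) * T a (T a (a * q)))).re +
      (r : ℝ) * (ip (a ^ (r - 1) * q ^ (r + 2))
        ((a * q) ^ (r + 1) * T a (T a (T a (a * q))))).re := by
  have h := leg_coord i (C (c : ℂ) * q) (fun d hd => hq d (by
    rw [coeff_C_mul] at hd
    exact right_ne_zero_of_mul hd)) r
  have hP : X i * (C (c : ℂ) * q) = a * q := by rw [ha]; ring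
  have hT : ∀ f, T a f = C (c : ℂ) * pderiv i f := by
    intro f
    rw [ha, T_mul, T_C, T_X, Complex.conj_ofReal]
  have hTC : ∀ (z : ℂ) (f : MvPolynomial ι ℂ), pderiv i (C z * f) = C z * pderiv i f := by
    intro z f
    rw [Derivation.leibniz, pderiv_C]
    simp
  have e1 : ip (a ^ r * q ^ (r + 2)) ((a * q) ^ (r + 1) * T a (T a (a * q))) =
      ip (X i ^ r * (C (c : ℂ) * q) ^ (r + 2)) ((X i * (C (c : ℂ) * q)) ^ (r + 1) *
        pderiv i (pderiv i (X i * (C (c : ℂ) * q)))) := by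
    rw [hP, hT, hT, hTC]
    have e2 : (a * q) ^ (r + 1) * (C (c : ℂ) * (C (c : ℂ) * pderiv i (pderiv i (a * q)))) =
        C ((c : ℂ) ^ 2) * ((a * q) ^ (r + 1) * pderiv i (pderiv i (a * q))) := by
      rw [map_pow]; ring
    have e3 : X i ^ r * (C (c : ℂ) * q) ^ (r + 2) = C ((c : ℂ) ^ 2) * (a ^ r * q ^ (r + 2)) := by
      rw [ha, map_pow]; ring
    rw [e2, e3, ip_smul_right, ip_smul_left, map_pow, Complex.conj_ofReal]
  rw [hP] at h e1
  rw [e1]
  rcases r with _ | r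
  · have h0 : ((0 : ℕ) : ℝ) = 0 := Nat.cast_zero
    rw [h0] at h ⊢
    rw [zero_mul, add_zero] at h ⊢
    exact h
  · have e4 : ip (a ^ (r + 1 - 1) * q ^ (r + 1 + 2)) ((a * q) ^ (r + 1 + 1) *
        T a (T a (T a (a * q)))) =
        ip (X i ^ (r + 1 - 1) * (C (c : ℂ) * q) ^ (r + 1 + 2)) ((a * q) ^ (r + 1 + 1) *
          pderiv i (pderiv i (pderiv i (a * q)))) := by
      rw [hT, hT, hT, hTC, hTC, hTC, Nat.add_sub_cancel]
      have e2 : (a * q) ^ (r + 1 + 1) * (C (c : ℂ) * (C (c : ℂ) * (C (c : ℂ) *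
          pderiv i (pderiv i (pderiv i (a * q)))))) =
          C ((c : ℂ) ^ 3) * ((a * q) ^ (r + 1 + 1) * pderiv i (pderiv i (pderiv i (a * q)))) := by
        rw [map_pow]; ring
      have e3 : X i ^ r * (C (c : ℂ) * q) ^ (r + 1 + 2) =
          C ((c : ℂ) ^ 3) * (a ^ r * q ^ (r + 1 + 2)) := by
        rw [ha, map_pow]; ring
      rw [e2, e3, ip_smul_right, ip_smul_left, map_pow, Complex.conj_ofReal]
    rw [e4]
    exact h

/-- the inequality of one leg, `s = r + 2` -/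
theorem leg (v : ι → ℂ) (hv : v ≠ 0) (q : MvPolynomial ι ℂ) (hq : q.IsHomogeneous 3) (r : ℕ) :
    0 ≤ 3 * ((r : ℝ) + 1) * (ip (lf v ^ r * q ^ (r + 2))
        ((lf v * q) ^ (r + 1) * T (lf v) (T (lf v) (lf v * q)))).re +
      (r : ℝ) * (ip (lf v ^ (r - 1) * q ^ (r + 2))
        ((lf v * q) ^ (r + 1) * T (lf v) (T (lf v) (T (lf v) (lf v * q))))).re := by
  obtain ⟨U, i, c, hU, hc, hl⟩ := exists_uni v hv
  obtain ⟨q', rfl, hq'⟩ := sub_surj hU q
  have h := leg_scaled i q' (fun d hd => by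
    have h1 : d.degree = 3 := by
      by_contra h
      exact hd ((hq' 3 hq).coeff_eq_zero h)
    rw [← h1]
    exact Finsupp.le_degree i d) r c hc _ rfl
  rw [hl, ← map_mul, T_sub hU, T_sub hU, T_sub hU, ← map_pow, ← map_pow, ← map_pow, ← map_pow,
    ← map_mul, ← map_mul, ← map_mul, ← map_mul, ip_sub hU, ip_sub hU]
  exact h

end Pool.Agent.helper59.Fock
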