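import Pool.Agent.helper59.LSZ.H5

set_option linter.all false
set_option autoImplicit false

/-!
# Identities between the inner products of products of linear forms (MP_2dd521_co)
-/

namespace Pool.Agent.helper59.Fock

open MvPolynomial Finset MeasureTheory
open scoped ComplexConjugate
open Pool.Agent.helper80.LSZ
open Pool.Agent.helper16.Fock

variable {ι : Type*} [Fintype ι] [DecidableEq ι]

theorem pd_prod {A : Type*} [DecidableEq A] (a : ι) (S : Finset A) (f : A → MvPolynomial ι ℂ) :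
    pderiv a (∏ i ∈ S, f i) = ∑ i ∈ S, (∏ k ∈ S.erase i, f k) * pderiv a (f i) := by
  induction S using Finset.induction_on with
  | empty => simp
  | insert j S hj ih =>
    rw [Finset.prod_insert hj, Derivation.leibniz, ih, Finset.sum_insert hj,
      Finset.erase_insert hj, smul_eq_mul, smul_eq_mul, add_comm, Finset.mul_sum]
    congr 1
    refine Finset.sum_congr rfl (fun i hi => ?_)
    have hij : j ≠ i := fun h => hj (h ▸ hi)
    rw [Finset.erase_insert_of_ne hij, Finset.prod_insert (fun h => hj (Finset.mem_of_mem_erase h))]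
    ring

section

variable {m : ℕ}

/-- `P^s / l^γ` -/
noncomputable def u (L : Fin m → ι → ℂ) (s : ℕ) (γ : Fin m → ℕ) : MvPolynomial ι ℂ :=
  ∏ i, lf (L i) ^ (s - γ i)

/-- unit vector -/
def e (i : Fin m) : Fin m → ℕ := Pi.single i 1

theorem e_self (i : Fin m) : e i i = 1 := by unfold e; simp

theorem e_ne {i k : Fin m} (h : k ≠ i) : e i k = 0 := by unfold e; simp [h]

theorem u_succ (L : Fin m → ι → ℂ) (s : ℕ) (γ : Fin m → ℕ) (i : Fin m) :
    u L s (γ + e i) = (∏ k ∈ Finset.univ.erase i, lf (L k) ^ (s - γ k)) *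
      lf (L i) ^ (s - γ i - 1) := by
  unfold u
  rw [← Finset.prod_erase_mul _ _ (Finset.mem_univ i)]
  congr 1
  · refine Finset.prod_congr rfl (fun k hk => ?_)
    rw [Pi.add_apply, e_ne (Finset.ne_of_mem_erase hk), add_zero]
  · rw [Pi.add_apply, e_self]
    congr 1

theorem u_mul (L : Fin m → ι → ℂ) (s : ℕ) (γ : Fin m → ℕ) (i : Fin m) (h : γ i + 1 ≤ s) :
    lf (L i) * u L s (γ + e i) = u L s γ := by
  rw [u_succ]
  unfold u
  rw [← Finset.prod_erase_mul _ _ (Finset.mem_univ i)]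
  have : s - γ i = s - γ i - 1 + 1 := by omega
  rw [mul_left_comm, ← pow_succ', ← this]

theorem pd_u (L : Fin m → ι → ℂ) (s : ℕ) (γ : Fin m → ℕ) (a : ι) :
    pderiv a (u L s γ) = ∑ i, C (((s - γ i : ℕ) : ℂ) * L i a) * u L s (γ + e i) := by
  unfold u
  rw [pd_prod]
  refine Finset.sum_congr rfl (fun i _ => ?_)
  have := u_succ L s γ i
  unfold u at this
  rw [this, pderiv_pow, pderiv_lf, map_mul, map_natCast]
  ring

theorem X_right (a : ι) (p q : MvPolynomial ι ℂ) : ip p (X a * q) = ip (pderiv a p) q := by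
  rw [← ip_symm, ip_X, ip_symm]

theorem T_leib (v : ι → ℂ) (f g : MvPolynomial ι ℂ) :
    T (lf v) (f * g) = T (lf v) f * g + f * T (lf v) g := by
  rw [T_lf, T_lf, T_lf, Finset.sum_mul, Finset.mul_sum, ← Finset.sum_add_distrib]
  refine Finset.sum_congr rfl (fun b _ => ?_)
  rw [Derivation.leibniz, smul_eq_mul, smul_eq_mul]
  ring

theorem T_pow (v : ι → ℂ) (f : MvPolynomial ι ℂ) (n : ℕ) :
    T (lf v) (f ^ (n + 1)) = C ((n : ℂ) + 1) * (f ^ n * T (lf v) f) := by
  rw [T_lf, T_lf, Finset.mul_sum, Finset.mul_sum]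
  refine Finset.sum_congr rfl (fun b _ => ?_)
  rw [pderiv_pow, Nat.add_sub_cancel, map_add, map_one, map_natCast]
  push_cast
  ring

theorem T_comm' (p q f : MvPolynomial ι ℂ) : T p (T q f) = T q (T p f) := by
  rw [← T_mul, ← T_mul, mul_comm]

/-- the Euler relation -/
theorem euler_u (L : Fin m → ι → ℂ) (s : ℕ) (γ : Fin m → ℕ) {d : ℕ} {Q : MvPolynomial ι ℂ}
    (hQ : Q.IsHomogeneous d) (H : MvPolynomial ι ℂ) :
    ∑ i, ((s - γ i : ℕ) : ℂ) * ip (u L s (γ + e i)) (T (lf (L i)) Q * H) =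
      d * ip (u L s γ) (Q * H) := by
  have h1 : (d : ℂ) * ip (u L s γ) (Q * H) = ∑ a, ip (pderiv a (u L s γ)) (pderiv a Q * H) := by
    have h2 : C (d : ℂ) * (Q * H) = ∑ a, X a * (pderiv a Q * H) := by
      have h3 := hQ.sum_X_mul_pderiv
      rw [nsmul_eq_mul] at h3
      rw [← mul_assoc, map_natCast, ← h3, Finset.sum_mul]
      exact Finset.sum_congr rfl (fun a _ => by ring)
    rw [← ip_smul_right, h2, ip_sum_right]
    exact Finset.sum_congr rfl (fun a _ => X_right a _ _)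
  rw [h1]
  simp_rw [pd_u, ip_sum_left, ip_smul_left]
  rw [Finset.sum_comm]
  refine Finset.sum_congr rfl (fun i _ => ?_)
  rw [T_lf, Finset.sum_mul, ip_sum_right, Finset.mul_sum]
  refine Finset.sum_congr rfl (fun a _ => ?_)
  rw [mul_assoc (C _), ip_smul_right, map_mul, Complex.conj_natCast]
  ring

theorem u_zero (L : Fin m → ι → ℂ) (s : ℕ) : u L s 0 = (∏ i, lf (L i)) ^ s := by
  unfold u
  rw [← Finset.prod_pow]
  exact Finset.prod_congr rfl (fun i _ => by simp)

theorem T_hom' {d : ℕ} (v : ι → ℂ) {Q : MvPolynomial ι ℂ} (hQ : Q.IsHomogeneous (d + 1)) :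
    (T (lf v) Q).IsHomogeneous d := by
  rw [T_lf]
  apply IsHomogeneous.sum
  intro b _
  have := (isHomogeneous_C ι (conj (v b))).mul (hQ.pderiv (i := b))
  simpa using this

/-- moving one annihilator -/
theorem ip_u_T (L : Fin m → ι → ℂ) (s : ℕ) (γ : Fin m → ℕ) (i : Fin m) (h : γ i + 1 ≤ s)
    (f : MvPolynomial ι ℂ) : ip (u L s (γ + e i)) (T (lf (L i)) f) = ip (u L s γ) f := by
  rw [← T_spec, u_mul L s γ i h]

end

end Pool.Agent.helper59.Fock
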