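import Pool.Agent.helper59.LSZ.H6

set_option linter.all false
set_option autoImplicit false

/-!
# The identity for the third factorial moment of the exchange numbers, four factors (MP_2dd521_co)
-/

namespace Pool.Agent.helper59.Fock

open MvPolynomial Finset MeasureTheory
open scoped ComplexConjugate
open Pool.Agent.helper80.LSZ
open Pool.Agent.helper16.Fock

variable {ι : Type*} [Fintype ι] [DecidableEq ι]

section

variable {m : ℕ} (L : Fin m → ι → ℂ) (r : ℕ)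

/-- first moments -/
noncomputable def E1 (j : Fin m) : ℂ := ip (u L (r + 2) (e j)) ((∏ i, lf (L i)) * T (lf (L j)) ((∏ i, lf (L i)) ^ (r + 1)))
noncomputable def E2 (j k : Fin m) : ℂ := ip (u L (r + 2) (e j + e k)) ((∏ i, lf (L i)) * T (lf (L k)) (T (lf (L j)) ((∏ i, lf (L i)) ^ (r + 1))))
noncomputable def E3 (j k i : Fin m) : ℂ :=
  ip (u L (r + 2) (e j + e k + e i)) ((∏ i, lf (L i)) * T (lf (L i)) (T (lf (L k)) (T (lf (L j)) ((∏ i, lf (L i)) ^ (r + 1)))))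
noncomputable def F2 (j k : Fin m) : ℂ := ip (u L (r + 2) (e j + e k)) (T (lf (L k)) (∏ i, lf (L i)) * T (lf (L j)) ((∏ i, lf (L i)) ^ (r + 1)))
noncomputable def F3 (j k i : Fin m) : ℂ :=
  ip (u L (r + 2) (e j + e k + e i)) (T (lf (L i)) (∏ i, lf (L i)) * T (lf (L k)) (T (lf (L j)) ((∏ i, lf (L i)) ^ (r + 1))))
noncomputable def G (j k : Fin m) : ℂ :=
  ip (u L (r + 2) (e j + e j + e k)) (T (lf (L k)) (T (lf (L j)) (∏ i, lf (L i))) * T (lf (L j)) ((∏ i, lf (L i)) ^ (r + 1)))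
noncomputable def J2 (j : Fin m) : ℂ :=
  ip (u L (r + 2) (e j + e j)) (((∏ i, lf (L i)) ^ (r + 1)) * T (lf (L j)) (T (lf (L j)) (∏ i, lf (L i))))
noncomputable def J3 (j : Fin m) : ℂ :=
  ip (u L (r + 2) (e j + e j + e j)) (((∏ i, lf (L i)) ^ (r + 1)) * T (lf (L j)) (T (lf (L j)) (T (lf (L j)) (∏ i, lf (L i)))))
noncomputable def NN : ℂ := ip ((∏ i, lf (L i)) ^ (r + 2)) ((∏ i, lf (L i)) ^ (r + 2))

theorem aPs (j : Fin m) : C ((r : ℂ) + 2) * (((∏ i, lf (L i)) ^ (r + 1)) * T (lf (L j)) (∏ i, lf (L i))) = T (lf (L j)) ((∏ i, lf (L i)) ^ (r + 2)) := by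
  have h := T_pow (L j) (∏ i, lf (L i)) (r + 1)
  rw [show r + 1 + 1 = r + 2 by ring] at h
  show _ = T (lf (L j)) ((∏ i, lf (L i)) ^ (r + 2))
  rw [h]
  push_cast
  congr 2
  ring

theorem ip_zero (f : MvPolynomial ι ℂ) (j : Fin m) :
    ip (u L (r + 2) (e j)) (T (lf (L j)) f) = ip ((∏ i, lf (L i)) ^ (r + 2)) f := by
  have h := ip_u_T L (r + 2) 0 j (by simp) f
  rw [zero_add, u_zero] at h
  exact h

theorem r1 (j : Fin m) : ((r : ℂ) + 2) * E1 L r j = ((r : ℂ) + 1) * NN L r := by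
  unfold E1
  have h1 : T (lf (L j)) ((∏ i, lf (L i)) ^ (r + 1)) = C ((r : ℂ) + 1) * ((∏ i, lf (L i)) ^ r * T (lf (L j)) (∏ i, lf (L i))) := T_pow (L j) (∏ i, lf (L i)) r
  have h2 : C ((r : ℂ) + 2) * ((∏ i, lf (L i)) * T (lf (L j)) ((∏ i, lf (L i)) ^ (r + 1))) = C ((r : ℂ) + 1) * T (lf (L j)) ((∏ i, lf (L i)) ^ (r + 2)) := by
    have h5 : C ((r : ℂ) + 2) * (((∏ i, lf (L i)) ^ (r + 1)) * T (lf (L j)) (∏ i, lf (L i))) = T (lf (L j)) ((∏ i, lf (L i)) ^ (r + 2)) := aPs L r j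
    rw [← h5, h1]
    ring
  have h3 := ip_zero L r ((∏ i, lf (L i)) ^ (r + 2)) j
  show ((r : ℂ) + 2) * ip (u L (r + 2) (e j)) ((∏ i, lf (L i)) * T (lf (L j)) ((∏ i, lf (L i)) ^ (r + 1))) = _
  rw [← ip_smul_right, h2, ip_smul_right, h3]
  rfl

theorem r2 (j : Fin m) : ((r : ℂ) + 2) * (F2 L r j j + J2 L r j) = NN L r := by
  unfold F2 J2
  have h1 : T (lf (L j)) (∏ i, lf (L i)) * T (lf (L j)) ((∏ i, lf (L i)) ^ (r + 1)) + ((∏ i, lf (L i)) ^ (r + 1)) * T (lf (L j)) (T (lf (L j)) (∏ i, lf (L i))) =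
      T (lf (L j)) (((∏ i, lf (L i)) ^ (r + 1)) * T (lf (L j)) (∏ i, lf (L i))) := by
    rw [T_leib]
    ring
  have h2 := ip_u_T L (r + 2) (e j) j (by rw [e_self]; omega) (T (lf (L j)) ((∏ i, lf (L i)) ^ (r + 2)))
  have h3 := ip_zero L r ((∏ i, lf (L i)) ^ (r + 2)) j
  show ((r : ℂ) + 2) * (ip (u L (r + 2) (e j + e j)) (T (lf (L j)) (∏ i, lf (L i)) * T (lf (L j)) ((∏ i, lf (L i)) ^ (r + 1))) +
    ip (u L (r + 2) (e j + e j)) (((∏ i, lf (L i)) ^ (r + 1)) * T (lf (L j)) (T (lf (L j)) (∏ i, lf (L i))))) = _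
  rw [← ip_add_right, h1, ← ip_smul_right]
  have h4 : C ((r : ℂ) + 2) * T (lf (L j)) (((∏ i, lf (L i)) ^ (r + 1)) * T (lf (L j)) (∏ i, lf (L i))) =
      T (lf (L j)) (T (lf (L j)) ((∏ i, lf (L i)) ^ (r + 2))) := by
    have h5 : C ((r : ℂ) + 2) * (((∏ i, lf (L i)) ^ (r + 1)) * T (lf (L j)) (∏ i, lf (L i))) = T (lf (L j)) ((∏ i, lf (L i)) ^ (r + 2)) := aPs L r j
    have h6 : T (lf (L j)) (C ((r : ℂ) + 2)) = 0 := by
      rw [T_lf]
      exact Finset.sum_eq_zero (fun b _ => by rw [pderiv_C, mul_zero])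
    have h7 := T_leib (L j) (C ((r : ℂ) + 2)) (((∏ i, lf (L i)) ^ (r + 1)) * T (lf (L j)) (∏ i, lf (L i)))
    rw [h6, zero_mul, zero_add] at h7
    rw [← h5, h7]
  rw [h4, h2, h3]
  rfl

theorem r3 (j : Fin m) : (r : ℂ) * G L r j j = (r : ℂ) * (J2 L r j - J3 L r j) := by
  rcases r with _ | r
  · simp
  · congr 1
    unfold G J2 J3
    have h1 : T (lf (L j)) (T (lf (L j)) (∏ i, lf (L i))) * T (lf (L j)) ((∏ i, lf (L i)) ^ (r + 1 + 1)) =
        T (lf (L j)) ((∏ i, lf (L i)) ^ (r + 1 + 1) * T (lf (L j)) (T (lf (L j)) (∏ i, lf (L i)))) -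
          (∏ i, lf (L i)) ^ (r + 1 + 1) * T (lf (L j)) (T (lf (L j)) (T (lf (L j)) (∏ i, lf (L i)))) := by
      rw [T_leib]
      ring
    have h2 := ip_u_T L (r + 1 + 2) (e j + e j) j (by rw [Pi.add_apply, e_self]; omega)
      ((∏ i, lf (L i)) ^ (r + 1 + 1) * T (lf (L j)) (T (lf (L j)) (∏ i, lf (L i))))
    show ip (u L (r + 1 + 2) (e j + e j + e j)) (T (lf (L j)) (T (lf (L j)) (∏ i, lf (L i))) *
      T (lf (L j)) ((∏ i, lf (L i)) ^ (r + 1 + 1))) = _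
    rw [h1, ip_sub_right, h2]

theorem r4 (j k : Fin m) (h : k ≠ j) : E2 L r j k = E1 L r j - F2 L r j k := by
  unfold E2 E1 F2
  have h2 := ip_u_T L (r + 2) (e j) k (by rw [e_ne h]; omega) ((∏ i, lf (L i)) * T (lf (L j)) ((∏ i, lf (L i)) ^ (r + 1)))
  rw [T_leib, ip_add_right] at h2
  show ip (u L (r + 2) (e j + e k)) ((∏ i, lf (L i)) * T (lf (L k)) (T (lf (L j)) ((∏ i, lf (L i)) ^ (r + 1)))) =
    ip (u L (r + 2) (e j)) ((∏ i, lf (L i)) * T (lf (L j)) ((∏ i, lf (L i)) ^ (r + 1))) - ip (u L (r + 2) (e j + e k)) (T (lf (L k)) (∏ i, lf (L i)) * T (lf (L j)) ((∏ i, lf (L i)) ^ (r + 1)))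
  rw [← h2]
  ring

theorem r5 (j k i : Fin m) (h1 : i ≠ j) (h2 : i ≠ k) : E3 L r j k i = E2 L r j k - F3 L r j k i := by
  unfold E3 E2 F3
  have h3 := ip_u_T L (r + 2) (e j + e k) i (by rw [Pi.add_apply, e_ne h1, e_ne h2]; omega)
    ((∏ i, lf (L i)) * T (lf (L k)) (T (lf (L j)) ((∏ i, lf (L i)) ^ (r + 1))))
  rw [T_leib, ip_add_right] at h3
  show ip (u L (r + 2) (e j + e k + e i)) ((∏ i, lf (L i)) * T (lf (L i)) (T (lf (L k)) (T (lf (L j)) ((∏ i, lf (L i)) ^ (r + 1))))) =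
    ip (u L (r + 2) (e j + e k)) ((∏ i, lf (L i)) * T (lf (L k)) (T (lf (L j)) ((∏ i, lf (L i)) ^ (r + 1)))) -
      ip (u L (r + 2) (e j + e k + e i)) (T (lf (L i)) (∏ i, lf (L i)) * T (lf (L k)) (T (lf (L j)) ((∏ i, lf (L i)) ^ (r + 1))))
  rw [← h3]
  ring

theorem r6 (j k : Fin m) (h : k ≠ j) : F3 L r j k j = F2 L r j j - G L r j k := by
  unfold F3 F2 G
  have h3 := ip_u_T L (r + 2) (e j + e j) k (by rw [Pi.add_apply, e_ne h]; omega)
    (T (lf (L j)) (∏ i, lf (L i)) * T (lf (L j)) ((∏ i, lf (L i)) ^ (r + 1)))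
  rw [T_leib, ip_add_right] at h3
  have h4 : e j + e k + e j = e j + e j + e k := by ring
  show ip (u L (r + 2) (e j + e k + e j)) (T (lf (L j)) (∏ i, lf (L i)) * T (lf (L k)) (T (lf (L j)) ((∏ i, lf (L i)) ^ (r + 1)))) =
    ip (u L (r + 2) (e j + e j)) (T (lf (L j)) (∏ i, lf (L i)) * T (lf (L j)) ((∏ i, lf (L i)) ^ (r + 1))) -
      ip (u L (r + 2) (e j + e j + e k)) (T (lf (L k)) (T (lf (L j)) (∏ i, lf (L i))) * T (lf (L j)) ((∏ i, lf (L i)) ^ (r + 1)))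
  rw [h4, ← h3]
  ring

theorem F3_symm (j k i : Fin m) : F3 L r j k i = F3 L r k j i := by
  unfold F3
  show ip (u L (r + 2) (e j + e k + e i)) (T (lf (L i)) (∏ i, lf (L i)) * T (lf (L k)) (T (lf (L j)) ((∏ i, lf (L i)) ^ (r + 1)))) =
    ip (u L (r + 2) (e k + e j + e i)) (T (lf (L i)) (∏ i, lf (L i)) * T (lf (L j)) (T (lf (L k)) ((∏ i, lf (L i)) ^ (r + 1))))
  rw [T_comm' (lf (L k)), add_comm (e j) (e k)]

theorem E2_symm (j k : Fin m) : E2 L r j k = E2 L r k j := by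
  unfold E2
  show ip (u L (r + 2) (e j + e k)) ((∏ i, lf (L i)) * T (lf (L k)) (T (lf (L j)) ((∏ i, lf (L i)) ^ (r + 1)))) =
    ip (u L (r + 2) (e k + e j)) ((∏ i, lf (L i)) * T (lf (L j)) (T (lf (L k)) ((∏ i, lf (L i)) ^ (r + 1))))
  rw [T_comm' (lf (L k)), add_comm (e j) (e k)]

theorem E3_symm (j k i : Fin m) : E3 L r j k i = E3 L r k j i := by
  unfold E3
  show ip (u L (r + 2) (e j + e k + e i)) ((∏ i, lf (L i)) * T (lf (L i)) (T (lf (L k)) (T (lf (L j)) ((∏ i, lf (L i)) ^ (r + 1))))) =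
    ip (u L (r + 2) (e k + e j + e i)) ((∏ i, lf (L i)) * T (lf (L i)) (T (lf (L j)) (T (lf (L k)) ((∏ i, lf (L i)) ^ (r + 1)))))
  rw [T_comm' (lf (L k)), add_comm (e j) (e k)]

theorem E3_symm' (j k i : Fin m) : E3 L r j k i = E3 L r j i k := by
  unfold E3
  show ip (u L (r + 2) (e j + e k + e i)) ((∏ i, lf (L i)) * T (lf (L i)) (T (lf (L k)) (T (lf (L j)) ((∏ i, lf (L i)) ^ (r + 1))))) =
    ip (u L (r + 2) (e j + e i + e k)) ((∏ i, lf (L i)) * T (lf (L k)) (T (lf (L i)) (T (lf (L j)) ((∏ i, lf (L i)) ^ (r + 1)))))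
  have h4 : e j + e k + e i = e j + e i + e k := by ring
  rw [T_comm' (lf (L i)), h4]

theorem P_hom : ((∏ i, lf (L i))).IsHomogeneous m := by
  have h := IsHomogeneous.prod (Finset.univ : Finset (Fin m)) (fun j => lf (L j))
    (fun _ => 1) (by
      intro j _
      unfold lf
      apply IsHomogeneous.sum
      intro i _
      have := (isHomogeneous_C ι (L j i)).mul (isHomogeneous_X ℂ i)
      simpa using this)
  simpa using h

theorem r7 (j : Fin m) : ∑ i, ((r + 2 - e j i : ℕ) : ℂ) * F2 L r j i = m * E1 L r j :=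
  euler_u L (r + 2) (e j) (P_hom L) _

theorem r8 (j k : Fin m) :
    ∑ i, ((r + 2 - (e j + e k) i : ℕ) : ℂ) * F3 L r j k i = m * E2 L r j k :=
  euler_u L (r + 2) (e j + e k) (P_hom L) _

end

section

variable {m : ℕ} (L : Fin (m + 1) → ι → ℂ) (r : ℕ)

theorem r9 (j : Fin (m + 1)) :
    ∑ i, ((r + 2 - (e j + e j) i : ℕ) : ℂ) * G L r j i = m * F2 L r j j :=
  euler_u L (r + 2) (e j + e j) (T_hom' (L j) (P_hom L)) _

end

end Pool.Agent.helper59.Fock
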