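import Pool.Agent.helper59.LSZ.H7

set_option linter.all false
set_option autoImplicit false

/-!
# Log-convexity for four factors (MP_2dd521_co)
-/

namespace Pool.Agent.helper59.Fock

open MvPolynomial Finset MeasureTheory
open scoped ComplexConjugate
open Pool.Agent.helper80.LSZ
open Pool.Agent.helper16.Fock

variable {ι : Type*} [Fintype ι] [DecidableEq ι]

theorem c7 (r : ℕ) (j i : Fin 4) : ((r + 2 - e j i : ℕ) : ℂ) = (r : ℂ) + 2 - (if i = j then 1 else 0) := by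
  by_cases h : i = j
  · subst h
    rw [e_self, if_pos rfl, Nat.cast_sub (by omega)]
    push_cast
    ring
  · rw [e_ne h, if_neg h]
    push_cast
    ring

theorem c8 (r : ℕ) (j k i : Fin 4) : ((r + 2 - (e j + e k) i : ℕ) : ℂ) =
    (r : ℂ) + 2 - (if i = j then 1 else 0) - (if i = k then 1 else 0) := by
  by_cases h : i = j
  · by_cases h2 : i = k
    · subst h
      subst h2
      rw [Pi.add_apply, e_self, if_pos rfl, Nat.cast_sub (by omega)]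
      push_cast
      ring
    · subst h
      rw [Pi.add_apply, e_self, e_ne h2, if_pos rfl, if_neg h2, Nat.cast_sub (by omega)]
      push_cast
      ring
  · by_cases h2 : i = k
    · subst h2
      rw [Pi.add_apply, e_self, e_ne h, if_pos rfl, if_neg h, Nat.cast_sub (by omega)]
      push_cast
      ring
    · rw [Pi.add_apply, e_ne h, e_ne h2, if_neg h, if_neg h2]
      push_cast
      ring

theorem lin4 (L : Fin 4 → ι → ℂ) (r : ℕ) :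
    3 * ((r : ℂ) + 2) ^ 3 * (E3 L r 0 1 2 + E3 L r 0 1 3 + E3 L r 0 2 3 + E3 L r 1 2 3) =
      12 * ((r : ℂ) + 1) ^ 3 * NN L r - ((r : ℂ) + 1) * ((r : ℂ) + 2) *
        (∑ j, (3 * ((r : ℂ) + 1) * J2 L r j + (r : ℂ) * J3 L r j)) := by
  rw [Fin.sum_univ_four]
  have a1_0 := r1 L r 0
  have a2_0 := r2 L r 0
  have a3_0 := r3 L r 0
  have a7_0 := r7 L r 0
  have a9_0 : ∑ i : Fin 4, ((r + 2 - ((e (0 : Fin 4) + e (0 : Fin 4)) i) : ℕ) : ℂ) * G L r 0 i = ((3 : ℕ) : ℂ) * F2 L r 0 0 := r9 (m := 3) L r 0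
  have a4_01 := r4 L r 0 1 (by decide)
  have a6_01 := r6 L r 0 1 (by decide)
  have a8_01 := r8 L r 0 1
  have b3_01 := F3_symm L r 0 1 1
  have a5_012 := r5 L r 0 1 2 (by decide) (by decide)
  have a5_013 := r5 L r 0 1 3 (by decide) (by decide)
  have a4_02 := r4 L r 0 2 (by decide)
  have a6_02 := r6 L r 0 2 (by decide)
  have a8_02 := r8 L r 0 2
  have b3_02 := F3_symm L r 0 2 2
  have a5_021 := r5 L r 0 2 1 (by decide) (by decide)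
  have a5_023 := r5 L r 0 2 3 (by decide) (by decide)
  have a4_03 := r4 L r 0 3 (by decide)
  have a6_03 := r6 L r 0 3 (by decide)
  have a8_03 := r8 L r 0 3
  have b3_03 := F3_symm L r 0 3 3
  have a5_031 := r5 L r 0 3 1 (by decide) (by decide)
  have a5_032 := r5 L r 0 3 2 (by decide) (by decide)
  have a1_1 := r1 L r 1
  have a2_1 := r2 L r 1
  have a3_1 := r3 L r 1
  have a7_1 := r7 L r 1
  have a9_1 : ∑ i : Fin 4, ((r + 2 - ((e (1 : Fin 4) + e (1 : Fin 4)) i) : ℕ) : ℂ) * G L r 1 i = ((3 : ℕ) : ℂ) * F2 L r 1 1 := r9 (m := 3) L r 1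
  have a4_10 := r4 L r 1 0 (by decide)
  have a6_10 := r6 L r 1 0 (by decide)
  have a8_10 := r8 L r 1 0
  have b3_10 := F3_symm L r 1 0 0
  have a5_102 := r5 L r 1 0 2 (by decide) (by decide)
  have a5_103 := r5 L r 1 0 3 (by decide) (by decide)
  have a4_12 := r4 L r 1 2 (by decide)
  have a6_12 := r6 L r 1 2 (by decide)
  have a8_12 := r8 L r 1 2
  have b3_12 := F3_symm L r 1 2 2
  have a5_120 := r5 L r 1 2 0 (by decide) (by decide)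
  have a5_123 := r5 L r 1 2 3 (by decide) (by decide)
  have a4_13 := r4 L r 1 3 (by decide)
  have a6_13 := r6 L r 1 3 (by decide)
  have a8_13 := r8 L r 1 3
  have b3_13 := F3_symm L r 1 3 3
  have a5_130 := r5 L r 1 3 0 (by decide) (by decide)
  have a5_132 := r5 L r 1 3 2 (by decide) (by decide)
  have a1_2 := r1 L r 2
  have a2_2 := r2 L r 2
  have a3_2 := r3 L r 2
  have a7_2 := r7 L r 2
  have a9_2 : ∑ i : Fin 4, ((r + 2 - ((e (2 : Fin 4) + e (2 : Fin 4)) i) : ℕ) : ℂ) * G L r 2 i = ((3 : ℕ) : ℂ) * F2 L r 2 2 := r9 (m := 3) L r 2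
  have a4_20 := r4 L r 2 0 (by decide)
  have a6_20 := r6 L r 2 0 (by decide)
  have a8_20 := r8 L r 2 0
  have b3_20 := F3_symm L r 2 0 0
  have a5_201 := r5 L r 2 0 1 (by decide) (by decide)
  have a5_203 := r5 L r 2 0 3 (by decide) (by decide)
  have a4_21 := r4 L r 2 1 (by decide)
  have a6_21 := r6 L r 2 1 (by decide)
  have a8_21 := r8 L r 2 1
  have b3_21 := F3_symm L r 2 1 1
  have a5_210 := r5 L r 2 1 0 (by decide) (by decide)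
  have a5_213 := r5 L r 2 1 3 (by decide) (by decide)
  have a4_23 := r4 L r 2 3 (by decide)
  have a6_23 := r6 L r 2 3 (by decide)
  have a8_23 := r8 L r 2 3
  have b3_23 := F3_symm L r 2 3 3
  have a5_230 := r5 L r 2 3 0 (by decide) (by decide)
  have a5_231 := r5 L r 2 3 1 (by decide) (by decide)
  have a1_3 := r1 L r 3
  have a2_3 := r2 L r 3
  have a3_3 := r3 L r 3
  have a7_3 := r7 L r 3
  have a9_3 : ∑ i : Fin 4, ((r + 2 - ((e (3 : Fin 4) + e (3 : Fin 4)) i) : ℕ) : ℂ) * G L r 3 i = ((3 : ℕ) : ℂ) * F2 L r 3 3 := r9 (m := 3) L r 3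
  have a4_30 := r4 L r 3 0 (by decide)
  have a6_30 := r6 L r 3 0 (by decide)
  have a8_30 := r8 L r 3 0
  have b3_30 := F3_symm L r 3 0 0
  have a5_301 := r5 L r 3 0 1 (by decide) (by decide)
  have a5_302 := r5 L r 3 0 2 (by decide) (by decide)
  have a4_31 := r4 L r 3 1 (by decide)
  have a6_31 := r6 L r 3 1 (by decide)
  have a8_31 := r8 L r 3 1
  have b3_31 := F3_symm L r 3 1 1
  have a5_310 := r5 L r 3 1 0 (by decide) (by decide)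
  have a5_312 := r5 L r 3 1 2 (by decide) (by decide)
  have a4_32 := r4 L r 3 2 (by decide)
  have a6_32 := r6 L r 3 2 (by decide)
  have a8_32 := r8 L r 3 2
  have b3_32 := F3_symm L r 3 2 2
  have a5_320 := r5 L r 3 2 0 (by decide) (by decide)
  have a5_321 := r5 L r 3 2 1 (by decide) (by decide)
  have c_021 : E3 L r 0 2 1 = E3 L r 0 1 2 := (E3_symm' L r 0 2 1)
  have c_031 : E3 L r 0 3 1 = E3 L r 0 1 3 := (E3_symm' L r 0 3 1)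
  have c_032 : E3 L r 0 3 2 = E3 L r 0 2 3 := (E3_symm' L r 0 3 2)
  have c_102 : E3 L r 1 0 2 = E3 L r 0 1 2 := (E3_symm L r 1 0 2)
  have c_103 : E3 L r 1 0 3 = E3 L r 0 1 3 := (E3_symm L r 1 0 3)
  have c_120 : E3 L r 1 2 0 = E3 L r 0 1 2 := ((E3_symm' L r 1 2 0).trans (E3_symm L r 1 0 2))
  have c_130 : E3 L r 1 3 0 = E3 L r 0 1 3 := ((E3_symm' L r 1 3 0).trans (E3_symm L r 1 0 3))
  have c_132 : E3 L r 1 3 2 = E3 L r 1 2 3 := (E3_symm' L r 1 3 2)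
  have c_201 : E3 L r 2 0 1 = E3 L r 0 1 2 := ((E3_symm L r 2 0 1).trans (E3_symm' L r 0 2 1))
  have c_203 : E3 L r 2 0 3 = E3 L r 0 2 3 := (E3_symm L r 2 0 3)
  have c_210 : E3 L r 2 1 0 = E3 L r 0 1 2 := (((E3_symm L r 2 1 0).trans (E3_symm' L r 1 2 0)).trans (E3_symm L r 1 0 2))
  have c_213 : E3 L r 2 1 3 = E3 L r 1 2 3 := (E3_symm L r 2 1 3)
  have c_230 : E3 L r 2 3 0 = E3 L r 0 2 3 := ((E3_symm' L r 2 3 0).trans (E3_symm L r 2 0 3))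
  have c_231 : E3 L r 2 3 1 = E3 L r 1 2 3 := ((E3_symm' L r 2 3 1).trans (E3_symm L r 2 1 3))
  have c_301 : E3 L r 3 0 1 = E3 L r 0 1 3 := ((E3_symm L r 3 0 1).trans (E3_symm' L r 0 3 1))
  have c_302 : E3 L r 3 0 2 = E3 L r 0 2 3 := ((E3_symm L r 3 0 2).trans (E3_symm' L r 0 3 2))
  have c_310 : E3 L r 3 1 0 = E3 L r 0 1 3 := (((E3_symm L r 3 1 0).trans (E3_symm' L r 1 3 0)).trans (E3_symm L r 1 0 3))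
  have c_312 : E3 L r 3 1 2 = E3 L r 1 2 3 := ((E3_symm L r 3 1 2).trans (E3_symm' L r 1 3 2))
  have c_320 : E3 L r 3 2 0 = E3 L r 0 2 3 := (((E3_symm L r 3 2 0).trans (E3_symm' L r 2 3 0)).trans (E3_symm L r 2 0 3))
  have c_321 : E3 L r 3 2 1 = E3 L r 1 2 3 := (((E3_symm L r 3 2 1).trans (E3_symm' L r 2 3 1)).trans (E3_symm L r 2 1 3))
  simp only [Fin.sum_univ_four, c7, c8, Fin.isValue, Fin.reduceEq, ↓reduceIte, if_true, if_false] at a7_0 a7_1 a7_2 a7_3 a9_0 a9_1 a9_2 a9_3 a8_01 a8_02 a8_03 a8_10 a8_12 a8_13 a8_20 a8_21 a8_23 a8_30 a8_31 a8_32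
  push_cast at a7_0 a7_1 a7_2 a7_3 a9_0 a9_1 a9_2 a9_3 a8_01 a8_02 a8_03 a8_10 a8_12 a8_13 a8_20 a8_21 a8_23 a8_30 a8_31 a8_32
  linear_combination ((r : ℂ) * (3 * (r : ℂ) + 2)) * a1_0 + (((r : ℂ) + 1) * (4 * (r : ℂ) + 3)) * a2_0 + (((r : ℂ) + 2) * ((r : ℂ) + 1)) * a3_0 + (-((r : ℂ) + 2) * (r : ℂ)) * a7_0 + (-((r : ℂ) + 2) * ((r : ℂ) + 1)) * a9_0 + (((r : ℂ) + 2) ^ 2 * (r : ℂ)) * a4_01 + (((r : ℂ) + 2) ^ 2 * ((r : ℂ) + 1)) * a6_01 + (-((r : ℂ) + 2) ^ 2 / 2) * a8_01 + (((r : ℂ) + 2) ^ 2 / 2 * ((r : ℂ) + 1)) * b3_01 + (((r : ℂ) + 2) ^ 3 / 2) * a5_012 + (((r : ℂ) + 2) ^ 3 / 2) * a5_013 + (((r : ℂ) + 2) ^ 2 * (r : ℂ)) * a4_02 + (((r : ℂ) + 2) ^ 2 * ((r : ℂ) + 1)) * a6_02 + (-((r : ℂ) + 2) ^ 2 / 2) * a8_02 + (((r : ℂ) + 2) ^ 2 / 2 * ((r : ℂ) + 1)) * b3_02 + (((r : ℂ) + 2) ^ 3 / 2) * a5_021 + (((r : ℂ) + 2) ^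 3 / 2) * a5_023 + (((r : ℂ) + 2) ^ 2 * (r : ℂ)) * a4_03 + (((r : ℂ) + 2) ^ 2 * ((r : ℂ) + 1)) * a6_03 + (-((r : ℂ) + 2) ^ 2 / 2) * a8_03 + (((r : ℂ) + 2) ^ 2 / 2 * ((r : ℂ) + 1)) * b3_03 + (((r : ℂ) + 2) ^ 3 / 2) * a5_031 + (((r : ℂ) + 2) ^ 3 / 2) * a5_032 + ((r : ℂ) * (3 * (r : ℂ) + 2)) * a1_1 + (((r : ℂ) + 1) * (4 * (r : ℂ) + 3)) * a2_1 + (((r : ℂ) + 2) * ((r : ℂ) + 1)) * a3_1 + (-((r : ℂ) + 2) * (r : ℂ)) * a7_1 + (-((r : ℂ) + 2) * ((r : ℂ) + 1)) * a9_1 + (((r : ℂ) + 2) ^ 2 * (r : ℂ)) * a4_10 + (((r : ℂ) + 2) ^ 2 * ((r : ℂ) + 1)) * a6_10 + (-((r : ℂ) + 2) ^ 2 / 2) * a8_10 + (((r : ℂ) + 2) ^ 2 / 2 * ((r : ℂ) + 1)) * b3_10 + (((r : ℂ) + 2) ^ 3 / 2) * a5_102 + (((r : ℂ) + 2) ^ 3 / 2) * a5_103 + (((r : ℂ) + 2) ^ 2 * (r : ℂ)) * a4_12 + (((r : ℂ) + 2) ^ 2 * ((r : ℂ) + 1)) * a6_12 + (-((r : ℂ) + 2) ^ 2 / 2) *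 a8_12 + (((r : ℂ) + 2) ^ 2 / 2 * ((r : ℂ) + 1)) * b3_12 + (((r : ℂ) + 2) ^ 3 / 2) * a5_120 + (((r : ℂ) + 2) ^ 3 / 2) * a5_123 + (((r : ℂ) + 2) ^ 2 * (r : ℂ)) * a4_13 + (((r : ℂ) + 2) ^ 2 * ((r : ℂ) + 1)) * a6_13 + (-((r : ℂ) + 2) ^ 2 / 2) * a8_13 + (((r : ℂ) + 2) ^ 2 / 2 * ((r : ℂ) + 1)) * b3_13 + (((r : ℂ) + 2) ^ 3 / 2) * a5_130 + (((r : ℂ) + 2) ^ 3 / 2) * a5_132 + ((r : ℂ) * (3 * (r : ℂ) + 2)) * a1_2 + (((r : ℂ) + 1) * (4 * (r : ℂ) + 3)) * a2_2 + (((r : ℂ) + 2) * ((r : ℂ) + 1)) * a3_2 + (-((r : ℂ) + 2) * (r : ℂ)) * a7_2 + (-((r : ℂ) + 2) * ((r : ℂ) + 1)) * a9_2 + (((r : ℂ) + 2) ^ 2 * (r : ℂ)) * a4_20 + (((r : ℂ) + 2) ^ 2 * ((r : ℂ) + 1)) * a6_20 + (-((r : ℂ) + 2) ^ 2 / 2) * a8_20 + (((r : ℂ) + 2) ^ 2 / 2 * ((r : ℂ) + 1)) * b3_20 + (((r : ℂ) + 2) ^ 3 / 2) * a5_201 + (((r : ℂ) + 2) ^ 3 / 2) * a5_203 + (((r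 : ℂ) + 2) ^ 2 * (r : ℂ)) * a4_21 + (((r : ℂ) + 2) ^ 2 * ((r : ℂ) + 1)) * a6_21 + (-((r : ℂ) + 2) ^ 2 / 2) * a8_21 + (((r : ℂ) + 2) ^ 2 / 2 * ((r : ℂ) + 1)) * b3_21 + (((r : ℂ) + 2) ^ 3 / 2) * a5_210 + (((r : ℂ) + 2) ^ 3 / 2) * a5_213 + (((r : ℂ) + 2) ^ 2 * (r : ℂ)) * a4_23 + (((r : ℂ) + 2) ^ 2 * ((r : ℂ) + 1)) * a6_23 + (-((r : ℂ) + 2) ^ 2 / 2) * a8_23 + (((r : ℂ) + 2) ^ 2 / 2 * ((r : ℂ) + 1)) * b3_23 + (((r : ℂ) + 2) ^ 3 / 2) * a5_230 + (((r : ℂ) + 2) ^ 3 / 2) * a5_231 + ((r : ℂ) * (3 * (r : ℂ) + 2)) * a1_3 + (((r : ℂ) + 1) * (4 * (r : ℂ) + 3)) * a2_3 + (((r : ℂ) + 2) * ((r : ℂ) + 1)) * a3_3 + (-((r : ℂ) + 2) * (r : ℂ)) * a7_3 + (-((r : ℂ) + 2) * ((r : ℂ) + 1)) * a9_3 + (((r : ℂ) + 2) ^ 2 * (r : ℂ)) * a4_30 + (((r : ℂ) + 2) ^ 2 * ((r : ℂ) + 1)) * a6_30 + (-((r : ℂ) + 2) ^ 2 / 2) * a8_30 + (((r : ℂ) + 2)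 ^ 2 / 2 * ((r : ℂ) + 1)) * b3_30 + (((r : ℂ) + 2) ^ 3 / 2) * a5_301 + (((r : ℂ) + 2) ^ 3 / 2) * a5_302 + (((r : ℂ) + 2) ^ 2 * (r : ℂ)) * a4_31 + (((r : ℂ) + 2) ^ 2 * ((r : ℂ) + 1)) * a6_31 + (-((r : ℂ) + 2) ^ 2 / 2) * a8_31 + (((r : ℂ) + 2) ^ 2 / 2 * ((r : ℂ) + 1)) * b3_31 + (((r : ℂ) + 2) ^ 3 / 2) * a5_310 + (((r : ℂ) + 2) ^ 3 / 2) * a5_312 + (((r : ℂ) + 2) ^ 2 * (r : ℂ)) * a4_32 + (((r : ℂ) + 2) ^ 2 * ((r : ℂ) + 1)) * a6_32 + (-((r : ℂ) + 2) ^ 2 / 2) * a8_32 + (((r : ℂ) + 2) ^ 2 / 2 * ((r : ℂ) + 1)) * b3_32 + (((r : ℂ) + 2) ^ 3 / 2) * a5_320 + (((r : ℂ) + 2) ^ 3 / 2) * a5_321 + (-((r : ℂ) + 2) ^ 3 / 2) * c_021 + (-((r : ℂ) + 2) ^ 3 / 2) * c_031 + (-((r : ℂ) + 2) ^ 3 / 2) * c_032 + (-((r : ℂ) + 2) ^ 3 / 2) * c_102 + (-((r : ℂ) + 2) ^ 3 / 2) * c_103 + (-((r : ℂ) + 2) ^ 3 / 2) * c_120 + (-((r : ℂ) + 2) ^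 3 / 2) * c_130 + (-((r : ℂ) + 2) ^ 3 / 2) * c_132 + (-((r : ℂ) + 2) ^ 3 / 2) * c_201 + (-((r : ℂ) + 2) ^ 3 / 2) * c_203 + (-((r : ℂ) + 2) ^ 3 / 2) * c_210 + (-((r : ℂ) + 2) ^ 3 / 2) * c_213 + (-((r : ℂ) + 2) ^ 3 / 2) * c_230 + (-((r : ℂ) + 2) ^ 3 / 2) * c_231 + (-((r : ℂ) + 2) ^ 3 / 2) * c_301 + (-((r : ℂ) + 2) ^ 3 / 2) * c_302 + (-((r : ℂ) + 2) ^ 3 / 2) * c_310 + (-((r : ℂ) + 2) ^ 3 / 2) * c_312 + (-((r : ℂ) + 2) ^ 3 / 2) * c_320 + (-((r : ℂ) + 2) ^ 3 / 2) * c_321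

end Pool.Agent.helper59.Fock
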