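import Pool.Agent.helper59.LSZ.H8

set_option linter.all false
set_option autoImplicit false

/-!
# Log-convexity for four factors: assembly (MP_2dd521_co)
-/

namespace Pool.Agent.helper59.Fock

open MvPolynomial Finset MeasureTheory
open scoped ComplexConjugate
open Pool.Agent.helper80.LSZ
open Pool.Agent.helper16.Fock

variable {ι : Type*} [Fintype ι] [DecidableEq ι]

section

variable {m : ℕ} (L : Fin m → ι → ℂ)

/-- the product without the factor `i` -/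
noncomputable def Qe (i : Fin m) : MvPolynomial ι ℂ := ∏ k ∈ Finset.univ.erase i, lf (L k)

theorem Qe_mul (i : Fin m) : lf (L i) * Qe L i = ∏ i, lf (L i) := by
  unfold Qe
  exact Finset.mul_prod_erase Finset.univ (fun k => lf (L k)) (Finset.mem_univ i)

theorem lf_hom (v : ι → ℂ) : (lf v).IsHomogeneous 1 := by
  unfold lf
  apply IsHomogeneous.sum
  intro i _
  have := (isHomogeneous_C ι (v i)).mul (isHomogeneous_X ℂ i)
  simpa using this

theorem nr_T (p f : MvPolynomial ι ℂ) : ip f (p * T p f) = ((nr (T p f) : ℝ) : ℂ) := by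
  rw [nr_cast, ← ip_symm, T_spec]
  exact ip_symm _ _

theorem sum_one (f : MvPolynomial ι ℂ) :
    ∑ i, ip f (T (lf (L i)) (∏ k, lf (L k)) * T (Qe L i) f) =
      ((n 1 (∏ k, lf (L k)) f : ℝ) : ℂ) := by
  set P := ∏ k, lf (L k) with hP
  have hpd : ∀ a, pderiv a P = ∑ i, C (L i a) * Qe L i := by
    intro a
    rw [hP, pd_prod]
    refine Finset.sum_congr rfl (fun i _ => ?_)
    rw [pderiv_lf, mul_comm]
    rfl
  have hT : ∀ a, T (pderiv a P) f = ∑ i, C (conj (L i a)) * T (Qe L i) f := by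
    intro a
    rw [hpd, T_sum_left]
    refine Finset.sum_congr rfl (fun i _ => ?_)
    rw [T_mul, T_C]
  have h1 : ∀ i, ip f (T (lf (L i)) P * T (Qe L i) f) =
      ∑ a, ip f (pderiv a P * (C (conj (L i a)) * T (Qe L i) f)) := by
    intro i
    rw [T_lf, Finset.sum_mul, ip_sum_right]
    refine Finset.sum_congr rfl (fun a _ => ?_)
    congr 1
    ring
  simp_rw [h1]
  rw [Finset.sum_comm, n_one]
  push_cast
  refine Finset.sum_congr rfl (fun a _ => ?_)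
  rw [← nr_T, ← ip_sum_right, ← Finset.mul_sum, ← hT]

theorem Z_i (i : Fin m) (f : MvPolynomial ι ℂ) :
    ip (lf (L i) * f) ((∏ k, lf (L k)) * T (Qe L i) f) =
      ip f (T (lf (L i)) (∏ k, lf (L k)) * T (Qe L i) f) +
        ((n 0 (∏ k, lf (L k)) f : ℝ) : ℂ) := by
  rw [T_spec, T_leib, ip_add_right, n_zero, ← nr_T, ← T_mul, Qe_mul]

end

section

variable (L : Fin 4 → ι → ℂ) (r : ℕ)

theorem u_three (i j k l : Fin 4) (h : Finset.univ.erase i = {j, k, l}) (hjk : j ≠ k) (hjl : j ≠ l)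
    (hkl : k ≠ l) (hij : i ≠ j) (hik : i ≠ k) (hil : i ≠ l) :
    u L (r + 2) (e j + e k + e l) = lf (L i) * (∏ k, lf (L k)) ^ (r + 1) ∧
    ∀ f, T (lf (L l)) (T (lf (L k)) (T (lf (L j)) f)) = T (Qe L i) f := by
  have hQ : Qe L i = lf (L j) * (lf (L k) * lf (L l)) := by
    unfold Qe
    rw [h, Finset.prod_insert (by simp [hjk, hjl]), Finset.prod_insert (by simp [hkl]),
      Finset.prod_singleton]
  constructor
  · unfold u
    rw [← Finset.mul_prod_erase _ _ (Finset.mem_univ i), h, Finset.prod_insert (by simp [hjk, hjl]),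
      Finset.prod_insert (by simp [hkl]), Finset.prod_singleton]
    rw [← Qe_mul L i, hQ]
    simp only [Pi.add_apply, e_self, e_ne hij, e_ne hik, e_ne hil, e_ne hjk, e_ne hjl, e_ne hkl,
      e_ne hjk.symm, e_ne hjl.symm, e_ne hkl.symm]
    simp only [add_zero, zero_add]
    rw [show r + 2 - 0 = (r + 1) + 1 by omega, show r + 2 - 1 = r + 1 by omega]
    ring
  · intro f
    rw [hQ, ← T_mul, ← T_mul]
    congr 1
    ring

theorem E3_eq (i j k l : Fin 4) (h : Finset.univ.erase i = {j, k, l}) (hjk : j ≠ k) (hjl : j ≠ l)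
    (hkl : k ≠ l) (hij : i ≠ j) (hik : i ≠ k) (hil : i ≠ l) :
    E3 L r j k l = ip ((∏ k, lf (L k)) ^ (r + 1))
        (T (lf (L i)) (∏ k, lf (L k)) * T (Qe L i) ((∏ k, lf (L k)) ^ (r + 1))) +
      ((n 0 (∏ k, lf (L k)) ((∏ k, lf (L k)) ^ (r + 1)) : ℝ) : ℂ) := by
  obtain ⟨h1, h2⟩ := u_three L r i j k l h hjk hjl hkl hij hik hil
  rw [← Z_i, ← h1, ← h2]
  rfl

theorem sum_E3 : E3 L r 0 1 2 + E3 L r 0 1 3 + E3 L r 0 2 3 + E3 L r 1 2 3 =
    ((n 1 (∏ k, lf (L k)) ((∏ k, lf (L k)) ^ (r + 1)) +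
      4 * n 0 (∏ k, lf (L k)) ((∏ k, lf (L k)) ^ (r + 1)) : ℝ) : ℂ) := by
  have h := sum_one L ((∏ k, lf (L k)) ^ (r + 1))
  rw [Fin.sum_univ_four] at h
  rw [E3_eq L r 3 0 1 2 (by decide) (by decide) (by decide) (by decide) (by decide) (by decide)
      (by decide),
    E3_eq L r 2 0 1 3 (by decide) (by decide) (by decide) (by decide) (by decide) (by decide)
      (by decide),
    E3_eq L r 1 0 2 3 (by decide) (by decide) (by decide) (by decide) (by decide) (by decide)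
      (by decide),
    E3_eq L r 0 1 2 3 (by decide) (by decide) (by decide) (by decide) (by decide) (by decide)
      (by decide)]
  push_cast
  rw [← h]
  ring

theorem leg_pos (hL : ∀ i, L i ≠ 0) (j : Fin 4) :
    0 ≤ (3 * ((r : ℂ) + 1) * J2 L r j + (r : ℂ) * J3 L r j).re := by
  have hq : (Qe L j).IsHomogeneous 3 := by
    unfold Qe
    have h := IsHomogeneous.prod (Finset.univ.erase j) (fun k => lf (L k)) (fun _ => 1)
      (fun k _ => lf_hom (L k))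
    have h2 : ∑ k ∈ Finset.univ.erase j, 1 = 3 := by
      rw [Finset.sum_const, Finset.card_erase_of_mem (Finset.mem_univ j)]
      simp
    rw [h2] at h
    exact h
  have h := leg (L j) (hL j) (Qe L j) hq r
  rw [Qe_mul] at h
  have hu : ∀ γ : Fin 4 → ℕ, (∀ k, k ≠ j → γ k = 0) →
      u L (r + 2) γ = lf (L j) ^ (r + 2 - γ j) * Qe L j ^ (r + 2) := by
    intro γ hγ
    unfold u Qe
    rw [← Finset.mul_prod_erase _ _ (Finset.mem_univ j), ← Finset.prod_pow]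
    congr 1
    refine Finset.prod_congr rfl (fun k hk => ?_)
    rw [hγ k (Finset.ne_of_mem_erase hk), Nat.sub_zero]
  have h2 : J2 L r j = ip (lf (L j) ^ r * Qe L j ^ (r + 2))
      ((∏ i, lf (L i)) ^ (r + 1) * T (lf (L j)) (T (lf (L j)) (∏ i, lf (L i)))) := by
    unfold J2
    rw [hu _ (fun k hk => by rw [Pi.add_apply, e_ne hk]), Pi.add_apply, e_self,
      show r + 2 - (1 + 1) = r by omega]
  have h3 : J3 L r j = ip (lf (L j) ^ (r - 1) * Qe L j ^ (r + 2))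
      ((∏ i, lf (L i)) ^ (r + 1) * T (lf (L j)) (T (lf (L j)) (T (lf (L j))
        (∏ i, lf (L i))))) := by
    unfold J3
    rw [hu _ (fun k hk => by rw [Pi.add_apply, Pi.add_apply, e_ne hk]), Pi.add_apply, Pi.add_apply,
      e_self, show r + 2 - (1 + 1 + 1) = r - 1 by omega]
  rw [← h2, ← h3] at h
  have h4 : (3 * ((r : ℂ) + 1) * J2 L r j + (r : ℂ) * J3 L r j).re =
      3 * ((r : ℝ) + 1) * (J2 L r j).re + (r : ℝ) * (J3 L r j).re := by
    rw [Complex.add_re, show (3 * ((r : ℂ) + 1)) = ((3 * ((r : ℝ) + 1) : ℝ) : ℂ) by push_cast; ring,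
      Complex.re_ofReal_mul, show (r : ℂ) = ((r : ℝ) : ℂ) by push_cast; ring,
      Complex.re_ofReal_mul]
  rw [h4]
  exact h

/-- the key inequality: the fully exchanged part is at most `(K/(K+1))^4` of the norm -/
theorem key4 (hι : Fintype.card ι = 4) (hL : ∀ i, L i ≠ 0) :
    ((r : ℝ) + 2) ^ 4 * n 0 (∏ k, lf (L k)) ((∏ k, lf (L k)) ^ (r + 1)) ≤
      ((r : ℝ) + 1) ^ 4 * nr ((∏ k, lf (L k)) ^ (r + 2)) := by
  have h1 := lin4 L r
  rw [sum_E3] at h1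
  have h2 := congrArg Complex.re h1
  have e1 : (3 * ((r : ℂ) + 2) ^ 3 * ((n 1 (∏ k, lf (L k)) ((∏ k, lf (L k)) ^ (r + 1)) +
      4 * n 0 (∏ k, lf (L k)) ((∏ k, lf (L k)) ^ (r + 1)) : ℝ) : ℂ)).re =
      3 * ((r : ℝ) + 2) ^ 3 * (n 1 (∏ k, lf (L k)) ((∏ k, lf (L k)) ^ (r + 1)) +
      4 * n 0 (∏ k, lf (L k)) ((∏ k, lf (L k)) ^ (r + 1))) := by
    rw [show 3 * ((r : ℂ) + 2) ^ 3 = ((3 * ((r : ℝ) + 2) ^ 3 : ℝ) : ℂ) by push_cast; ring,
      Complex.re_ofReal_mul, Complex.ofReal_re]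
  have e2 : (12 * ((r : ℂ) + 1) ^ 3 * NN L r - ((r : ℂ) + 1) * ((r : ℂ) + 2) *
        (∑ j, (3 * ((r : ℂ) + 1) * J2 L r j + (r : ℂ) * J3 L r j))).re =
      12 * ((r : ℝ) + 1) ^ 3 * nr ((∏ k, lf (L k)) ^ (r + 2)) - ((r : ℝ) + 1) * ((r : ℝ) + 2) *
        (∑ j, (3 * ((r : ℂ) + 1) * J2 L r j + (r : ℂ) * J3 L r j).re) := by
    rw [Complex.sub_re, show 12 * ((r : ℂ) + 1) ^ 3 = ((12 * ((r : ℝ) + 1) ^ 3 : ℝ) : ℂ) by
      push_cast; ring, Complex.re_ofReal_mul, show ((r : ℂ) + 1) * ((r : ℂ) + 2) =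
      ((((r : ℝ) + 1) * ((r : ℝ) + 2) : ℝ) : ℂ) by push_cast; ring, Complex.re_ofReal_mul,
      Complex.re_sum]
    rfl
  rw [e1, e2] at h2
  have h3 : 0 ≤ ∑ j, (3 * ((r : ℂ) + 1) * J2 L r j + (r : ℂ) * J3 L r j).re :=
    Finset.sum_nonneg (fun j _ => leg_pos L r hL j)
  have hf : ((∏ k, lf (L k)) ^ (r + 1)).IsHomogeneous (4 + 4 * r) := by
    have := (P_hom L).pow (r + 1)
    rwa [show 4 * (r + 1) = 4 + 4 * r by ring] at this
  have h4 := test_two (P_hom L) hf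
  rw [hι] at h4
  push_cast at h4
  set y0 := n 0 (∏ k, lf (L k)) ((∏ k, lf (L k)) ^ (r + 1))
  set y1 := n 1 (∏ k, lf (L k)) ((∏ k, lf (L k)) ^ (r + 1))
  set N := nr ((∏ k, lf (L k)) ^ (r + 2))
  set S := ∑ j, (3 * ((r : ℂ) + 1) * J2 L r j + (r : ℂ) * J3 L r j).re
  have hr : (0 : ℝ) ≤ r := Nat.cast_nonneg r
  have h5 : 4 * y0 ≤ ((r : ℝ) + 1) * y1 := by linarith
  have h6 : 0 ≤ ((r : ℝ) + 1) * ((r : ℝ) + 2) * S := by positivity
  have h7 : 3 * ((r : ℝ) + 2) ^ 3 * (y1 + 4 * y0) ≤ 12 * ((r : ℝ) + 1) ^ 3 * N := by linarith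
  have h8 : 3 * ((r : ℝ) + 2) ^ 3 * (4 * ((r : ℝ) + 2) * y0) ≤
      3 * ((r : ℝ) + 2) ^ 3 * (((r : ℝ) + 1) * (y1 + 4 * y0)) :=
    mul_le_mul_of_nonneg_left (by linarith) (by positivity)
  have h9 := mul_le_mul_of_nonneg_left h7 (by positivity : (0 : ℝ) ≤ (r : ℝ) + 1)
  nlinarith

/-- log-convexity for four factors -/
theorem logconv4 (hι : Fintype.card ι = 4) (hL : ∀ i, L i ≠ 0) :
    ((r : ℝ) + 2) ^ 4 * nr ((∏ k, lf (L k)) ^ (r + 1)) ^ 2 ≤
      ((r : ℝ) + 1) ^ 4 * (nr ((∏ k, lf (L k)) ^ r) * nr ((∏ k, lf (L k)) ^ (r + 2))) := by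
  have h1 := key4 L r hι hL
  have h2 := test_one (∏ k, lf (L k)) r
  have h3 := nr_nonneg ((∏ k, lf (L k)) ^ r)
  have h4 := mul_le_mul_of_nonneg_left h2 (by positivity : (0 : ℝ) ≤ ((r : ℝ) + 2) ^ 4)
  have h5 := mul_le_mul_of_nonneg_left h1 h3
  linarith

end

end Pool.Agent.helper59.Fock
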